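import Pool.Agent.U409.SH.Sel1

/-!
# Points of 2-coverings over `ℚ_p` can be moved into general position
-/

set_option autoImplicit false

namespace Pool.Agent.U409.HP

open Pool.Agent.U409.SH
open Pool.Agent.W262.SH (LocSol SelS)

variable {p : ℕ} [hp : Fact p.Prime]

lemma small (E : ℚ_[p]) {δ : ℝ} (hδ : 0 < δ) : ∃ ε : ℚ_[p], ε ≠ 0 ∧ ‖E * ε ^ 2‖ < δ := by
  have hpc : ((p : ℕ) : ℚ_[p]) ≠ 0 := by exact_mod_cast hp.out.ne_zero
  have h1 : Filter.Tendsto (fun n : ℕ => ‖E‖ * (‖((p : ℕ) : ℚ_[p])‖ ^ 2) ^ n) Filter.atTop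
      (nhds (‖E‖ * 0)) := by
    apply Filter.Tendsto.const_mul
    apply tendsto_pow_atTop_nhds_zero_of_lt_one (by positivity)
    have h2 : ‖((p : ℕ) : ℚ_[p])‖ < 1 := Padic.norm_p_lt_one
    have h3 : 0 ≤ ‖((p : ℕ) : ℚ_[p])‖ := norm_nonneg _
    nlinarith
  rw [mul_zero] at h1
  obtain ⟨n, hn⟩ := (h1.eventually_lt_const hδ).exists
  refine ⟨((p : ℕ) : ℚ_[p]) ^ n, pow_ne_zero n hpc, ?_⟩
  rw [norm_mul, norm_pow, norm_pow, ← pow_mul, mul_comm n 2, pow_mul]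
  exact hn

lemma class_near (hp2 : p ≠ 2) {u v E : ℚ_[p]} (hu : u ≠ 0) (h : ‖u - v‖ < ‖u‖)
    (hE : IsSquare (u * E)) : v ≠ 0 ∧ IsSquare (v * E) := by
  obtain ⟨h1, h2⟩ := near_p hp2 hu h
  exact ⟨h1, sq_trans hu h2 hE⟩

/-- a point with a vanishing coordinate can be moved -/
lemma move (hp2 : p ≠ 2) {P Q E0 E1 E2 : ℚ_[p]} (hE0 : E0 ≠ 0) (hP : P ≠ 0) (hQ : Q ≠ 0)
    (h1 : IsSquare (P * E1)) (h2 : IsSquare (Q * E2)) :
    ∃ h : ℚ_[p], h ≠ 0 ∧ IsSquare (h * E0) ∧ P + h ≠ 0 ∧ IsSquare ((P + h) * E1) ∧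
      Q + h ≠ 0 ∧ IsSquare ((Q + h) * E2) := by
  obtain ⟨ε, hε, hs⟩ := small E0 (lt_min (norm_pos_iff.2 hP) (norm_pos_iff.2 hQ))
  have k1 := class_near (v := P + E0 * ε ^ 2) hp2 hP (by
    rw [sub_add_cancel_left, norm_neg]
    exact hs.trans_le (min_le_left _ _)) h1
  have k2 := class_near (v := Q + E0 * ε ^ 2) hp2 hQ (by
    rw [sub_add_cancel_left, norm_neg]
    exact hs.trans_le (min_le_right _ _)) h2
  exact ⟨E0 * ε ^ 2, mul_ne_zero hE0 (pow_ne_zero 2 hε), ⟨E0 * ε, by ring⟩, k1.1, k1.2, k2.1, k2.2⟩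

lemma sq_self {E a : ℚ_[p]} : IsSquare (E * a ^ 2 * E) := ⟨E * a, by ring⟩

/-- general position -/
theorem pert (hp2 : p ≠ 2) {A B : ℤ} (hA : A ≠ 0) (hB : B ≠ 0) (hAB : A ≠ B)
    {E0 E1 E2 a0 a1 a2 w : ℚ_[p]} (hE0 : E0 ≠ 0) (hE1 : E1 ≠ 0) (hE2 : E2 ≠ 0)
    (hE : IsSquare (E0 * E1 * E2)) (hne : a0 ≠ 0 ∨ w ≠ 0)
    (h1 : E0 * a0 ^ 2 - A * w ^ 2 = E1 * a1 ^ 2) (h2 : E0 * a0 ^ 2 - B * w ^ 2 = E2 * a2 ^ 2) :
    ∃ X : ℚ_[p], X ≠ 0 ∧ X - A ≠ 0 ∧ X - B ≠ 0 ∧ IsSquare (X * E0) ∧ IsSquare ((X - A) * E1) ∧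
      IsSquare ((X - B) * E2) := by
  have hAp : (A : ℚ_[p]) ≠ 0 := by exact_mod_cast hA
  have hBp : (B : ℚ_[p]) ≠ 0 := by exact_mod_cast hB
  have hABp : (A : ℚ_[p]) - B ≠ 0 := by
    rw [sub_ne_zero]
    exact_mod_cast hAB
  rcases eq_or_ne w 0 with rfl | hw
  · have ha0 : a0 ≠ 0 := hne.resolve_right (fun h => h rfl)
    have k1 : E0 * a0 ^ 2 = E1 * a1 ^ 2 := by linear_combination h1
    have k2 : E0 * a0 ^ 2 = E2 * a2 ^ 2 := by linear_combination h2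
    have hne0 : E0 * a0 ^ 2 ≠ 0 := mul_ne_zero hE0 (pow_ne_zero 2 ha0)
    have ha1 : a1 ≠ 0 := by
      rintro rfl
      apply hne0
      rw [k1]
      ring
    have ha2 : a2 ≠ 0 := by
      rintro rfl
      apply hne0
      rw [k2]
      ring
    have s01 : IsSquare (E0 * E1) := ⟨E1 * a1 / a0, by
      field_simp
      linear_combination k1⟩
    have s02 : IsSquare (E0 * E2) := ⟨E2 * a2 / a0, by
      field_simp
      linear_combination k2⟩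
    obtain ⟨μ, hμ⟩ := hE
    obtain ⟨α, hα⟩ := s01
    obtain ⟨β, hβ⟩ := s02
    have hα0 : α ≠ 0 := by
      rintro rfl
      rw [mul_zero] at hα
      exact mul_ne_zero hE0 hE1 hα
    have hβ0 : β ≠ 0 := by
      rintro rfl
      rw [mul_zero] at hβ
      exact mul_ne_zero hE0 hE2 hβ
    have e2 : E2 = (μ / α) * (μ / α) := by
      rw [div_mul_div_comm, ← hμ, ← hα]
      field_simp
    have e1 : E1 = (μ / β) * (μ / β) := by
      rw [div_mul_div_comm, ← hμ, ← hβ]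
      field_simp
    have hμ0 : μ ≠ 0 := by
      rintro rfl
      rw [mul_zero] at hμ
      exact mul_ne_zero (mul_ne_zero hE0 hE1) hE2 hμ
    have e0 : E0 = (α * β / μ) * (α * β / μ) := by
      have : E0 * E1 * (E0 * E2) = α * α * (β * β) := by rw [← hα, ← hβ]
      rw [div_mul_div_comm, ← hμ]
      field_simp
      linear_combination this
    obtain ⟨X, Y, hY, hXY, ⟨u, hu⟩, ⟨v, hv⟩, ⟨t, ht⟩⟩ := big_point hp2 A B
    have hY2 : Y ^ 2 ≠ 0 := pow_ne_zero 2 hY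
    rw [hXY] at hY2
    rw [sub_zero] at hY2 hu
    refine ⟨X, left_ne_zero_of_mul (left_ne_zero_of_mul hY2),
      right_ne_zero_of_mul (left_ne_zero_of_mul hY2), right_ne_zero_of_mul hY2, ?_, ?_, ?_⟩
    · exact ⟨u * (α * β / μ), by rw [mul_mul_mul_comm, ← hu, ← e0]⟩
    · exact ⟨v * (μ / β), by rw [mul_mul_mul_comm, ← hv, ← e1]⟩
    · exact ⟨t * (μ / α), by rw [mul_mul_mul_comm, ← ht, ← e2]⟩
  · -- normalise `w = 1`
    obtain ⟨b0, hb0⟩ : ∃ b, b = a0 / w := ⟨_, rfl⟩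
    obtain ⟨b1, hb1⟩ : ∃ b, b = a1 / w := ⟨_, rfl⟩
    obtain ⟨b2, hb2⟩ : ∃ b, b = a2 / w := ⟨_, rfl⟩
    have g1 : E0 * b0 ^ 2 - A = E1 * b1 ^ 2 := by
      rw [hb0, hb1]
      field_simp
      linear_combination h1
    have g2 : E0 * b0 ^ 2 - B = E2 * b2 ^ 2 := by
      rw [hb0, hb2]
      field_simp
      linear_combination h2
    by_cases c0 : b0 = 0
    · subst c0
      have q1 : (-(A : ℚ_[p])) = E1 * b1 ^ 2 := by linear_combination g1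
      have q2 : (-(B : ℚ_[p])) = E2 * b2 ^ 2 := by linear_combination g2
      obtain ⟨h, hh, k0, k1, k2, k3, k4⟩ := move hp2 hE0 (neg_ne_zero.2 hAp) (neg_ne_zero.2 hBp)
        (E1 := E1) (E2 := E2) (by rw [q1]; exact sq_self) (by rw [q2]; exact sq_self)
      rw [neg_add_eq_sub] at k1 k2 k3 k4
      exact ⟨h, hh, k1, k3, k0, k2, k4⟩
    by_cases c1 : b1 = 0
    · subst c1
      have q1 : (A : ℚ_[p]) = E0 * b0 ^ 2 := by linear_combination -g1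
      have q2 : (A : ℚ_[p]) - B = E2 * b2 ^ 2 := by linear_combination g2 - g1
      obtain ⟨h, hh, k0, k1, k2, k3, k4⟩ := move hp2 hE1 hAp hABp
        (E1 := E0) (E2 := E2) (by rw [q1]; exact sq_self) (by rw [q2]; exact sq_self)
      refine ⟨A + h, k1, by rwa [add_sub_cancel_left], ?_, k2, by rwa [add_sub_cancel_left], ?_⟩
      · rwa [show (A : ℚ_[p]) + h - B = A - B + h by ring]
      · rwa [show (A : ℚ_[p]) + h - B = A - B + h by ring]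
    by_cases c2 : b2 = 0
    · subst c2
      have q1 : (B : ℚ_[p]) = E0 * b0 ^ 2 := by linear_combination -g2
      have q2 : (B : ℚ_[p]) - A = E1 * b1 ^ 2 := by linear_combination g1 - g2
      have hBA : (B : ℚ_[p]) - A ≠ 0 := by
        intro h
        exact hABp (by linear_combination -h)
      obtain ⟨h, hh, k0, k1, k2, k3, k4⟩ := move hp2 hE2 hBp hBA
        (E1 := E0) (E2 := E1) (by rw [q1]; exact sq_self) (by rw [q2]; exact sq_self)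
      refine ⟨B + h, k1, ?_, by rwa [add_sub_cancel_left], k2, ?_, by rwa [add_sub_cancel_left]⟩
      · rwa [show (B : ℚ_[p]) + h - A = B - A + h by ring]
      · rwa [show (B : ℚ_[p]) + h - A = B - A + h by ring]
    refine ⟨E0 * b0 ^ 2, mul_ne_zero hE0 (pow_ne_zero 2 c0), ?_, ?_, sq_self, ?_, ?_⟩
    · rw [g1]
      exact mul_ne_zero hE1 (pow_ne_zero 2 c1)
    · rw [g2]
      exact mul_ne_zero hE2 (pow_ne_zero 2 c2)
    · rw [g1]
      exact sq_self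
    · rw [g2]
      exact sq_self

/-- the local condition for the pair of square classes -/
theorem locSol_cov (hp2 : p ≠ 2) {r s k c n0 n1 e2 : ℤ} (hr : r ≠ 0) (hs : s ≠ 0) (hrs : r ≠ s)
    (hk : k ≠ 0) (hc : c ≠ 0) (hn0 : n0 ≠ 0) (hn1 : n1 ≠ 0) (hsq : IsSquare (c * n0 * n1))
    (he : IsSquare (c * n0 * e2)) {x w y0 y1 : ℚ_[p]} (hne : x ≠ 0 ∨ w ≠ 0)
    (h0 : x ^ 2 - (r * k : ℤ) * w ^ 2 = n0 * y0 ^ 2)
    (h1 : x ^ 2 - (s * k : ℤ) * w ^ 2 = n1 * y1 ^ 2) :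
    LocSol p (r * (c * k)) (s * (c * k)) c e2 := by
  have hcp : (c : ℚ_[p]) ≠ 0 := by exact_mod_cast hc
  have hn0p : (n0 : ℚ_[p]) ≠ 0 := by exact_mod_cast hn0
  have hn1p : (n1 : ℚ_[p]) ≠ 0 := by exact_mod_cast hn1
  have hck : c * k ≠ 0 := mul_ne_zero hc hk
  obtain ⟨m, hm⟩ := hsq
  obtain ⟨l, hl⟩ := he
  have hmp : (c : ℚ_[p]) * n0 * n1 = m * m := by exact_mod_cast congrArg (Int.cast : ℤ → ℚ_[p]) hm
  have hlp : (c : ℚ_[p]) * n0 * e2 = l * l := by exact_mod_cast congrArg (Int.cast : ℤ → ℚ_[p]) hl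
  obtain ⟨X, k0, k1, k2, k3, k4, k5⟩ := pert (p := p) hp2 (A := r * (c * k)) (B := s * (c * k))
    (mul_ne_zero hr hck) (mul_ne_zero hs hck) (fun h => hrs (mul_right_cancel₀ hck h))
    (E0 := c) (E1 := c * n0) (E2 := c * n1) (a0 := x) (a1 := y0) (a2 := y1) (w := w)
    hcp (mul_ne_zero hcp hn0p) (mul_ne_zero hcp hn1p)
    ⟨c * m, by linear_combination (c : ℚ_[p]) ^ 2 * hmp⟩ hne
    (by push_cast at h0 ⊢; linear_combination (c : ℚ_[p]) * h0)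
    (by push_cast at h1 ⊢; linear_combination (c : ℚ_[p]) * h1)
  obtain ⟨α, hα⟩ := k3
  obtain ⟨β, hβ⟩ := k4
  obtain ⟨γ, hγ⟩ := k5
  have hm0 : (m : ℚ_[p]) ≠ 0 := by
    intro h
    rw [h, mul_zero] at hmp
    exact mul_ne_zero (mul_ne_zero hcp hn0p) hn1p hmp
  have hα0 : α ≠ 0 := by
    rintro rfl
    rw [mul_zero] at hα
    exact mul_ne_zero k0 hcp hα
  have hβ0 : β ≠ 0 := by
    rintro rfl
    rw [mul_zero] at hβ
    exact mul_ne_zero k1 (mul_ne_zero hcp hn0p) hβ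
  have hγ0 : γ ≠ 0 := by
    rintro rfl
    rw [mul_zero] at hγ
    exact mul_ne_zero k2 (mul_ne_zero hcp hn1p) hγ
  apply locSol_of hp2
  refine ⟨X, α * β * γ / (c * m), div_ne_zero (mul_ne_zero (mul_ne_zero hα0 hβ0) hγ0)
    (mul_ne_zero hcp hm0), ?_, ?_, ?_⟩
  · rw [sub_zero, div_pow, div_eq_iff (pow_ne_zero 2 (mul_ne_zero hcp hm0))]
    have e1 : (α * β * γ) ^ 2 = (α * α) * (β * β) * (γ * γ) := by ring
    rw [e1, ← hα, ← hβ, ← hγ]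
    linear_combination (X * (X - ((r * (c * k) : ℤ) : ℚ_[p])) * (X - ((s * (c * k) : ℤ) : ℚ_[p])) *
      (c : ℚ_[p]) ^ 2) * hmp
  · rw [sub_zero]
    exact ⟨α, hα⟩
  · exact sq_trans (mul_ne_zero hcp hn0p) ⟨β, by rw [← hβ]; ring⟩ ⟨l, by rw [← hlp]⟩

end Pool.Agent.U409.HP
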