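import Pool.Agent.U214.PT.ShaQ
import Pool.Agent.U409.SH.Desc

/-!
# The moments of the number of the 2-coverings of the twists by the values of a polynomial
-/

set_option autoImplicit false

namespace Pool.Agent.U409.HP

open Finset Polynomial Pool.Agent.W262.RK Pool.Agent.U214.PT
open Pool.Agent.W307.RT (S1 S2)
open Pool.Agent.W262.SH (LocSol SelS)
open Pool.Agent.U409.SH (desc5 locl')

/-- the number of the pairs of square classes with points at all the odd primes -/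
noncomputable def ss (A B : ℤ) : ℕ := (SelS A B).ncard

/-- the bound -/
lemma ssP {a b : ℤ} {z y X k e : ℕ} (hB : Bab a b z) (ha : a ≠ 0) (hb : b ≠ 0) (hab : a ≠ b)
    {F : ℤ} (h0 : F ≠ 0) (hF : F.natAbs ≤ X ^ e) (he : 1 ≤ e) (hy : 1 ≤ y)
    (hk : X < (y + 1) ^ k) :
    (SelS (a * F) (b * F)).Finite ∧ ss (a * F) (b * F) ≤
      4 ^ (z + 2) * (4 ^ e) ^ k * 4 ^ (t2 z y F).primeFactors.card *
        NL (t1 z y F) (LLs c3 (kab a b) (fun _ => t1 z y F) (ngs F (t1 z y F))) := by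
  have hz2 := hB.1
  have hmd : t1 z y F ∣ PP z y := Nat.dvd_of_mem_divisors (t1_mem F)
  have hPSof : ∀ p : ℕ, p.Prime → p ∣ t1 z y F → p ∈ PS z y := fun p hp h =>
    (prime_dvd_PP hp).1 (h.trans hmd)
  have hnκ : ∀ p : ℕ, p.Prime → p ∣ t1 z y F → ∀ j k, ¬ (p : ℤ) ∣ kab a b j k := by
    intro p hp h j k
    exact kab_nd hB hp (mem_PS.1 (hPSof p hp h)).1.1 j k
  have hodd : ∀ p : ℕ, p.Prime → p ∣ t1 z y F → p ≠ 2 := by
    intro p hp h
    have h1 := (mem_PS.1 (hPSof p hp h)).1.1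
    omega
  have hA : a * F ≠ 0 := mul_ne_zero ha h0
  have hB' : b * F ≠ 0 := mul_ne_zero hb h0
  have hAB : a * F ≠ b * F := fun h => hab (mul_right_cancel₀ h0 h)
  obtain ⟨hfin, hd⟩ := desc5 (t1 z y F)
    (LLs c3 (kab a b) (fun _ => t1 z y F) (ngs F (t1 z y F)))
    (a * F) (b * F) hA hB' hAB
    ((PP_squarefree z y).squarefree_of_dvd hmd)
    (fun p hp hpd => ⟨fun j hj => (Pool.Agent.W342.RK2.xcl _ _ _ p hp (hodd p hp hpd)
        (hnκ p hp hpd j)).1,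
      fun a1 b1 c1 d1 a2 b2 c2 d2 e1 e2 j hj =>
        (Pool.Agent.W342.RK2.xcl _ _ _ p hp (hodd p hp hpd) (hnκ p hp hpd j)).2
          a1 b1 c1 d1 a2 b2 c2 d2 (e1 j hj) (e2 j hj)⟩)
    (fun p hp hpd e1 e2 he1 he2 hsol j hj => by
      have hpp : p.Prime := Fact.out
      have hjs := (dvd_t1 hpp).1 hpd
      have hzp := (mem_PS.1 hjs.1).1.1
      refine locl' 3 (kab a b j) _ p _ _ (hodd p hpp hpd)
        (hnκ p hpp hpd j) (locP hB hpp hzp hjs.2.1 hjs.2.2 ?_) e1 e2 he1 he2 hsol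
      rw [decide_eq_true_eq]
      unfold ngs
      rw [mem_filter, Nat.mem_primeFactors]
      constructor
      · exact fun h => h.2
      · intro h5
        exact ⟨⟨hpp, hpd, dv_ne_zero (t1_mem F)⟩, h5⟩)
    (by
      rw [← Nat.not_even_iff_odd, even_iff_two_dvd]
      intro h
      exact hodd 2 Nat.prime_two h rfl)
  refine ⟨hfin, hd.trans (Nat.mul_le_mul_right _ ?_)⟩
  have hc := badP hB h0 hF he hy hk
  calc 4 ^ (((2 * (a * F) * (b * F) * (a * F - b * F)).natAbs.primeFactors.filter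
        (fun q => ¬ q ∣ t1 z y F)).card + 2)
      ≤ 4 ^ ((z + 2) + e * k + (t2 z y F).primeFactors.card) :=
        Nat.pow_le_pow_right (by norm_num) (by omega)
    _ = _ := by
        rw [pow_add, pow_add, pow_mul]

/-- scaling -/
lemma locSol_sq {p : ℕ} [Fact p.Prime] {A B e1 e2 u : ℤ} (hu : u ≠ 0)
    (h : LocSol p A B e1 e2) : LocSol p (u ^ 2 * A) (u ^ 2 * B) e1 e2 := by
  obtain ⟨x, hx, hxA, hxB, ⟨a, ha⟩, ⟨b, hb⟩, ⟨c, hc⟩⟩ := h
  have hu2 : ((u : ℚ) ^ 2) ≠ 0 := pow_ne_zero 2 (by exact_mod_cast hu)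
  refine ⟨u ^ 2 * x, mul_ne_zero hu2 hx, ?_, ?_, ⟨u * a, ?_⟩, ⟨u * b, ?_⟩, ⟨u * c, ?_⟩⟩
  · intro h
    apply hxA
    push_cast at h
    exact mul_left_cancel₀ hu2 h
  · intro h
    apply hxB
    push_cast at h
    exact mul_left_cancel₀ hu2 h
  · push_cast at ha ⊢
    linear_combination (u : ℚ_[p]) ^ 2 * ha
  · push_cast at hb ⊢
    linear_combination (u : ℚ_[p]) ^ 2 * hb
  · push_cast at hc ⊢
    linear_combination (u : ℚ_[p]) ^ 2 * hc

lemma locSol_sq' {p : ℕ} [Fact p.Prime] {A B e1 e2 u : ℤ} (hu : u ≠ 0)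
    (h : LocSol p (u ^ 2 * A) (u ^ 2 * B) e1 e2) : LocSol p A B e1 e2 := by
  obtain ⟨x, hx, hxA, hxB, ⟨a, ha⟩, ⟨b, hb⟩, ⟨c, hc⟩⟩ := h
  have hu0 : (u : ℚ) ≠ 0 := by exact_mod_cast hu
  have hup : (u : ℚ_[p]) ≠ 0 := by exact_mod_cast hu
  refine ⟨x / u ^ 2, div_ne_zero hx (pow_ne_zero 2 hu0), ?_, ?_, ⟨a / u, ?_⟩, ⟨b / u, ?_⟩,
    ⟨c / u, ?_⟩⟩
  · intro h
    apply hxA
    push_cast
    rw [← h]
    field_simp
  · intro h
    apply hxB
    push_cast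
    rw [← h]
    field_simp
  · rw [div_mul_div_comm, ← ha]
    push_cast
    field_simp
  · rw [div_mul_div_comm, ← hb]
    push_cast
    field_simp
  · rw [div_mul_div_comm, ← hc]
    push_cast
    field_simp

lemma ss_sq {A B u : ℤ} (hu : u ≠ 0) : ss (u ^ 2 * A) (u ^ 2 * B) = ss A B := by
  unfold ss
  congr 1
  ext e
  exact ⟨fun h => ⟨h.1, h.2.1, fun p _ hp => locSol_sq' hu (h.2.2 p hp)⟩,
    fun h => ⟨h.1, h.2.1, fun p _ hp => locSol_sq hu (h.2.2 p hp)⟩⟩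

theorem ss_QB : QB (fun A B => (ss A B : ℝ)) where
  nn := fun _ _ => Nat.cast_nonneg _
  sq := fun _ _ _ hu => by
    show (ss _ _ : ℝ) = (ss _ _ : ℝ)
    rw [ss_sq hu]
  bd := fun hB ha hb hab F h0 hF he hy hk => by
    have := (ssP hB ha hb hab h0 hF he hy hk).2
    exact_mod_cast this

/-- all the moments are bounded -/
theorem ss_all {D : ℤ[X]} (hD : D ≠ 0) {a b : ℤ} (ha : a ≠ 0) (hb : b ≠ 0) (hab : a ≠ b)
    (r : ℕ) : ∃ C : ℝ, ∀ X : ℕ, 1 ≤ X → ∑ t ∈ Icc (-(X : ℤ)) X,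
      (ss (a * D.eval t) (b * D.eval t) : ℝ) ^ r ≤ C * X :=
  all_DQ ss_QB hD ha hb hab r

end Pool.Agent.U409.HP
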