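import Pool.Agent.U409.HP.Defs
import Pool.Agent.U409.HP.Pert
import Pool.Agent.U409.HP.SelQ

/-!
# The curves with rational points or orthogonal adelic points are few
-/

set_option autoImplicit false

namespace Pool.Agent.U409.HP

open Polynomial Finset
open Pool.Agent.W313.BMX (Point AdelicPoint Orthogonal homog Admissible value values Fam)
open Pool.Agent.W262.SH (LocSol SelS)
open Pool.Agent.U409.SH (desc5)

lemma exists_sqf {n : ℤ} (hn : n ≠ 0) : ∃ e : ℤ, Squarefree e ∧ IsSquare (n * e) := by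
  obtain ⟨a, b, hab, hsq⟩ := Nat.sq_mul_squarefree n.natAbs
  refine ⟨n.sign * a, ?_, ⟨(b : ℤ) * a, ?_⟩⟩
  · rw [← Int.squarefree_natAbs, Int.natAbs_mul, Int.natAbs_sign_of_ne_zero hn, one_mul,
      Int.natAbs_natCast]
    exact hsq
  · have h1 : n = n.sign * ((b : ℤ) ^ 2 * a) := by
      have h2 := Int.sign_mul_natAbs n
      rw [← hab] at h2
      push_cast at h2
      exact h2.symm
    have h3 : n.sign * n.sign = 1 := by
      rcases Int.lt_trichotomy n 0 with h | h | h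
      · rw [Int.sign_eq_neg_one_of_neg h]; rfl
      · exact absurd h hn
      · rw [Int.sign_eq_one_of_pos h]; rfl
    calc n * (n.sign * a) = (n.sign * ((b : ℤ) ^ 2 * a)) * (n.sign * a) := by rw [← h1]
      _ = (n.sign * n.sign) * (b * a * (b * a)) := by ring
      _ = _ := by rw [h3, one_mul]

lemma exists_sqf_rat {q : ℚ} (hq : q ≠ 0) : ∃ e : ℤ, Squarefree e ∧ IsSquare (q * (e : ℚ)) := by
  have h1 : q.num * (q.den : ℤ) ≠ 0 :=
    mul_ne_zero (Rat.num_ne_zero.2 hq) (by exact_mod_cast q.den_nz)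
  obtain ⟨e, he, m, hm⟩ := exists_sqf h1
  refine ⟨e, he, (m : ℚ) / q.den, ?_⟩
  have h2 : (q.den : ℚ) ≠ 0 := by exact_mod_cast q.den_nz
  have h3 : (q.num : ℚ) * (q.den : ℚ) * e = m * m := by exact_mod_cast congrArg (Int.cast : ℤ → ℚ) hm
  have h4 : q = q.num / q.den := (Rat.num_div_den q).symm
  rw [div_mul_div_comm, ← h3]
  field_simp
  rw [mul_comm, ← mul_assoc]
  rw [show (q.num : ℚ) = q * q.den by rw [mul_comm]; exact (Rat.den_mul_eq_num q).symm]
  ring

lemma sqf_unique {a b m : ℤ} (ha : Squarefree a) (hb : Squarefree b) (hm : m ≠ 0)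
    (h1 : IsSquare (a * m)) (h2 : IsSquare (b * m)) : a = b := by
  apply Pool.Agent.U409.SH.eq_of_sq ha hb
  obtain ⟨u, hu⟩ := h1
  obtain ⟨v, hv⟩ := h2
  have hmq : (m : ℚ) ≠ 0 := by exact_mod_cast hm
  refine ⟨(u * v : ℚ) / m, ?_⟩
  have hu' : (a : ℚ) * m = u * u := by exact_mod_cast congrArg (Int.cast : ℤ → ℚ) hu
  have hv' : (b : ℚ) * m = v * v := by exact_mod_cast congrArg (Int.cast : ℤ → ℚ) hv
  push_cast
  field_simp
  linear_combination hu' * ((b : ℚ) * m) + (u : ℚ) ^ 2 * hv'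

/-- a covering which is soluble at the odd primes gives a pair of square classes -/
lemma sel_pair {r s k c n0 n1 : ℤ} (hr : r ≠ 0) (hs : s ≠ 0) (hrs : r ≠ s)
    (hk : k ≠ 0) (hc : Squarefree c) (hn0 : n0 ≠ 0) (hn1 : n1 ≠ 0) (hsq : IsSquare (c * n0 * n1))
    (h : ∀ (p : ℕ) [Fact p.Prime], ∃ x w y0 y1 : ℚ_[p], (x ≠ 0 ∨ w ≠ 0) ∧
      x ^ 2 - (r * k : ℤ) * w ^ 2 = n0 * y0 ^ 2 ∧ x ^ 2 - (s * k : ℤ) * w ^ 2 = n1 * y1 ^ 2) :
    ∃ e : ℤ, (c, e) ∈ SelS (r * (c * k)) (s * (c * k)) := by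
  obtain ⟨e, he, hse⟩ := exists_sqf (mul_ne_zero hc.ne_zero hn0)
  refine ⟨e, hc, he, fun p hp hp2 => ?_⟩
  obtain ⟨x, w, y0, y1, hne, h0, h1⟩ := h p
  exact locSol_cov hp2 hr hs hrs hk hc.ne_zero hn0 hn1 hsq hse hne h0 h1

lemma fin_SelS {A B : ℤ} (hA : A ≠ 0) (hB : B ≠ 0) (hAB : A ≠ B) : (SelS A B).Finite := by
  have hno : ∀ p : ℕ, p.Prime → ¬ p ∣ 1 := fun p hp h => hp.one_lt.ne' (Nat.dvd_one.1 h)
  exact (desc5 1 (fun _ _ _ _ _ => True) A B hA hB hAB squarefree_one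
    (fun p hp h => absurd h (hno p hp)) (fun p hp h => absurd h (hno p hp.out)) odd_one).1

lemma nz_of_nonsq {m : ℤ} (hm : ¬ IsSquare m) {x w : ℚ} (hne : x ≠ 0 ∨ w ≠ 0) :
    x ^ 2 - (m : ℚ) * w ^ 2 ≠ 0 := by
  intro h
  by_cases hw : w = 0
  · subst hw
    rcases hne with h1 | h1
    · apply h1
      have : x ^ 2 = 0 := by linear_combination h
      exact pow_eq_zero_iff two_ne_zero |>.1 this
    · exact h1 rfl
  · apply hm
    rw [← Rat.isSquare_intCast_iff]
    refine ⟨x / w, ?_⟩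
    field_simp
    linear_combination -h

/-- the curves with a rational point or an orthogonal adelic point -/
theorem pair_of {r s k c : ℤ} (hr : r ≠ 0) (hs : s ≠ 0) (hrs : r ≠ s) (hk : k ≠ 0)
    (hc : Squarefree c) (hrk : ¬ IsSquare (r * k)) (hsk : ¬ IsSquare (s * k))
    (h : Nonempty (Point (ff (r * k) (s * k)) c ℚ) ∨
      ∃ P : AdelicPoint (ff (r * k) (s * k)) c, Orthogonal P) :
    ∃ e : ℤ, (c, e) ∈ SelS (r * (c * k)) (s * (c * k)) := by
  rcases h with ⟨⟨x, w, y, hne, heq⟩⟩ | ⟨P, hP⟩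
  · rw [prod_ff] at heq
    have hF := nz_of_nonsq hrk hne
    have hG := nz_of_nonsq hsk hne
    obtain ⟨n0, hn0, m0, hm0⟩ := exists_sqf_rat hF
    obtain ⟨n1, hn1, m1, hm1⟩ := exists_sqf_rat hG
    have hn0' : (n0 : ℚ) ≠ 0 := by exact_mod_cast hn0.ne_zero
    have hn1' : (n1 : ℚ) ≠ 0 := by exact_mod_cast hn1.ne_zero
    have hm0' : m0 ≠ 0 := by
      rintro rfl
      rw [mul_zero] at hm0
      exact mul_ne_zero hF hn0' hm0
    have hm1' : m1 ≠ 0 := by
      rintro rfl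
      rw [mul_zero] at hm1
      exact mul_ne_zero hG hn1' hm1
    have hc0 : (c : ℚ) ≠ 0 := by exact_mod_cast hc.ne_zero
    have hy : y ≠ 0 := by
      rintro rfl
      apply mul_ne_zero hF hG
      rw [← heq]
      ring
    refine sel_pair hr hs hrs hk hc hn0.ne_zero hn1.ne_zero ?_ ?_
    · rw [← Rat.isSquare_intCast_iff]
      refine ⟨m0 * m1 / y, ?_⟩
      push_cast
      rw [div_mul_div_comm, eq_div_iff (mul_ne_zero hy hy)]
      have e1 : m0 * m1 * (m0 * m1) = (m0 * m0) * (m1 * m1) := by ring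
      rw [e1, ← hm0, ← hm1]
      linear_combination (n0 : ℚ) * n1 * heq
    · intro p _
      have c0 := congrArg (Rat.cast : ℚ → ℚ_[p]) hm0
      have c1 := congrArg (Rat.cast : ℚ → ℚ_[p]) hm1
      have hn0p : (n0 : ℚ_[p]) ≠ 0 := by exact_mod_cast hn0.ne_zero
      have hn1p : (n1 : ℚ_[p]) ≠ 0 := by exact_mod_cast hn1.ne_zero
      refine ⟨(x : ℚ_[p]), (w : ℚ_[p]), (m0 : ℚ_[p]) / n0, (m1 : ℚ_[p]) / n1, ?_, ?_, ?_⟩
      · rcases hne with h | h
        · left; exact_mod_cast h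
        · right; exact_mod_cast h
      · push_cast at c0 ⊢
        field_simp
        linear_combination c0
      · push_cast at c1 ⊢
        field_simp
        linear_combination c1
  · have hrsk : r * k ≠ s * k := fun h => hrs (mul_right_cancel₀ hk h)
    obtain ⟨δ, hδ, hsq, -, hp⟩ := Pool.Agent.W313.BMX.sel (ff (r * k) (s * k))
      (adm hrk hsk hrsk) c hc.ne_zero P hP
    refine sel_pair hr hs hrs hk hc (hδ 0) (hδ 1) ?_ ?_
    · rw [Fin.prod_univ_two, ← mul_assoc] at hsq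
      exact hsq
    · intro p _
      obtain ⟨x, w, hne, h⟩ := hp p
      obtain ⟨y0, h0⟩ := h 0
      obtain ⟨y1, h1⟩ := h 1
      refine ⟨x, w, y0, y1, hne, ?_, ?_⟩
      · have := homog_ff0 (r * k) (s * k) x w
        unfold homog at this
        unfold Pool.Agent.W262.TW.hom at h0
        rw [← this, h0]
      · have := homog_ff1 (r * k) (s * k) x w
        unfold homog at this
        unfold Pool.Agent.W262.TW.hom at h1
        rw [← this, h1]

/-- the number of the curves with a rational point or an orthogonal adelic point -/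
theorem orth_le {r s d : ℤ} (hr : r ≠ 0) (hs : s ≠ 0) (hrs : r ≠ s) (hd : d ≠ 0) :
    (Rat r s d ∪ Orth r s d).Finite ∧ (Rat r s d ∪ Orth r s d).ncard ≤ ss (r * d) (s * d) + 2 := by
  classical
  have hfin := fin_SelS (mul_ne_zero hr hd) (mul_ne_zero hs hd)
    (fun h => hrs (mul_right_cancel₀ hd h))
  have hsub : Rat r s d ∪ Orth r s d ⊆ Prod.fst '' (SelS (r * d) (s * d)) ∪
      ({c | Squarefree c ∧ IsSquare (c * (r * d))} ∪ {c | Squarefree c ∧ IsSquare (c * (s * d))}) := by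
    intro c hc
    have h1 : Squarefree c ∧ ∃ k : ℤ, d = c * k ∧ (Nonempty (Point (ff (r * k) (s * k)) c ℚ) ∨
        ∃ P : AdelicPoint (ff (r * k) (s * k)) c, Orthogonal P) := by
      rcases hc with ⟨h1, k, h2, h3⟩ | ⟨h1, k, h2, h3⟩
      · exact ⟨h1, k, h2, Or.inl h3⟩
      · exact ⟨h1, k, h2, Or.inr h3⟩
    obtain ⟨hcs, k, hk, h2⟩ := h1
    have hk0 : k ≠ 0 := by
      rintro rfl
      rw [mul_zero] at hk
      exact hd hk
    by_cases hrk : IsSquare (r * k)
    · right; left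
      obtain ⟨m, hm⟩ := hrk
      refine ⟨hcs, c * m, ?_⟩
      rw [hk]
      linear_combination c ^ 2 * hm
    by_cases hsk : IsSquare (s * k)
    · right; right
      obtain ⟨m, hm⟩ := hsk
      refine ⟨hcs, c * m, ?_⟩
      rw [hk]
      linear_combination c ^ 2 * hm
    left
    obtain ⟨e, he⟩ := pair_of hr hs hrs hk0 hcs hrk hsk h2
    rw [← hk] at he
    exact ⟨(c, e), he, rfl⟩
  have hone : ∀ m : ℤ, m ≠ 0 → ({c : ℤ | Squarefree c ∧ IsSquare (c * m)}).Subsingleton :=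
    fun m hm a ha b hb => sqf_unique ha.1 hb.1 hm ha.2 hb.2
  have h1 := hone (r * d) (mul_ne_zero hr hd)
  have h2 := hone (s * d) (mul_ne_zero hs hd)
  have hfin' : (Prod.fst '' (SelS (r * d) (s * d)) ∪
      ({c : ℤ | Squarefree c ∧ IsSquare (c * (r * d))} ∪
        {c | Squarefree c ∧ IsSquare (c * (s * d))})).Finite :=
    (hfin.image _).union (h1.finite.union h2.finite)
  refine ⟨hfin'.subset hsub, (Set.ncard_le_ncard hsub hfin').trans ?_⟩
  refine (Set.ncard_union_le _ _).trans ?_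
  have h3 : (Prod.fst '' (SelS (r * d) (s * d))).ncard ≤ ss (r * d) (s * d) :=
    Set.ncard_image_le hfin
  have h4 := Set.ncard_union_le {c : ℤ | Squarefree c ∧ IsSquare (c * (r * d))}
    {c | Squarefree c ∧ IsSquare (c * (s * d))}
  haveI := h1.finite.to_subtype
  haveI := h2.finite.to_subtype
  have h5 := Set.ncard_le_one_iff_subsingleton.2 h1
  have h6 := Set.ncard_le_one_iff_subsingleton.2 h2
  omega

end Pool.Agent.U409.HP
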