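import Pool.Agent.U409.HP.Norm
import Pool.Agent.U409.HP.Cov
import Pool.Agent.U409.LS.Fact

/-!
# The everywhere locally soluble curves and those with rational or orthogonal adelic points
-/

set_option autoImplicit false

namespace Pool.Agent.U409.HP

open Polynomial Finset Filter Topology
open Pool.Agent.H474R2.PG (rho)
open Pool.Agent.U214.PT (Pg pg_wt Sep sep_sq)
open Pool.Agent.U409.LS (om SS PM RR rt8 lu QF mert_fac)
open Pool.Agent.W313.BMX (Point AdelicPoint Orthogonal homog)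

/-- the input from the polynomial -/
def Dat (n : ℤ) (D : ℤ[X]) (κ : ℝ) : Prop :=
  ∃ (c : ℤ) (g G : ℤ[X]) (d z' : ℕ), c ≠ 0 ∧ g ≠ 0 ∧ G ≠ 0 ∧ C (c ^ 2) * D = g ^ 2 * G ∧
    Pg G d z' ∧ ∃ C0 : ℝ, ∀ y : ℕ, 3 ≤ y → κ * Real.log (Real.log y) - C0 ≤ SS G (PM n y)

theorem dat_of {n : ℤ} (hsq : ¬ IsSquare n)
    {D : ℤ[X]} (hD : D ≠ 0) {S : Finset ℤ[X]} (hS0 : S.Nonempty)
    (hS : ∀ f ∈ S, Irreducible f ∧ 0 < f.natDegree ∧ Odd (multiplicity f D) ∧
      Irreducible (f.map (Int.castRingHom (QuadraticAlgebra ℚ (n : ℚ) 0))))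
    (hSn : ∀ f ∈ S, ∀ g ∈ S, f ≠ g → ¬ Associated f g) : Dat n D ((S.card : ℝ) / 2) := by
  classical
  have hn : ∀ q : ℚ, q ^ 2 ≠ (n : ℚ) := by
    intro q hq
    apply hsq
    rw [← Rat.isSquare_intCast_iff]
    exact ⟨q, by rw [← hq, pow_two]⟩
  obtain ⟨c, g, G, hc, hg, hG, hsep, hcg⟩ := sep_sq D.natDegree D rfl hD
  -- the factors divide the separable part
  have hdv : ∀ f ∈ S, f ∣ G := by
    intro f hf
    obtain ⟨hf1, hf2, hf3, -⟩ := hS f hf
    have hpr : Prime f := irreducible_iff_prime.1 hf1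
    by_contra hnd
    have hfin : FiniteMultiplicity f D :=
      FiniteMultiplicity.of_not_isUnit hf1.not_isUnit hD
    have h1 : emultiplicity f (C (c ^ 2) * D) = emultiplicity f (g ^ 2 * G) := by rw [hcg]
    rw [emultiplicity_mul hpr, emultiplicity_mul hpr, emultiplicity_pow hpr] at h1
    have h2 : emultiplicity f (C (c ^ 2)) = 0 := by
      rw [emultiplicity_eq_zero]
      intro h3
      have h4 := natDegree_le_of_dvd h3 (by
        rw [Ne, C_eq_zero]
        exact pow_ne_zero 2 hc)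
      rw [natDegree_C] at h4
      omega
    have h3 : emultiplicity f G = 0 := by
      rw [emultiplicity_eq_zero]
      exact hnd
    have hfg : FiniteMultiplicity f g := FiniteMultiplicity.of_not_isUnit hf1.not_isUnit hg
    rw [h2, h3, zero_add, add_zero, hfin.emultiplicity_eq_multiplicity,
      hfg.emultiplicity_eq_multiplicity] at h1
    have h4 : multiplicity f D = 2 * multiplicity f g := by exact_mod_cast h1
    rw [h4] at hf3
    exact (Nat.not_odd_iff_even.2 (even_two_mul _)) hf3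
  have hSi : ∀ f ∈ S, 0 < f.natDegree ∧ Irreducible (f.map (Int.castRingHom (QF n))) :=
    fun f hf => ⟨(hS f hf).2.1, (hS f hf).2.2.2⟩
  have hM := mert_fac hn hsep S (fun f hf => (hS f hf).1) hdv hSn hSi
  have hGd : 0 < G.natDegree := by
    obtain ⟨f, hf⟩ := hS0
    exact lt_of_lt_of_le (hS f hf).2.1 (natDegree_le_of_dvd (hdv f hf) hG)
  obtain ⟨z1, -, -, hPg, -, -⟩ := pg_wt hsep hGd
  exact ⟨c, g, G, G.natDegree, z1, hc, hg, hG, hcg, hPg, hM⟩

/-- large primes are good -/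
lemma good_z {r s : ℤ} (hr : r ≠ 0) (hs : s ≠ 0) (hrs : r ≠ s) {z : ℕ}
    (hz : 2 + r.natAbs + s.natAbs ≤ z) :
    ∀ p : ℕ, p.Prime → z < p → p ≠ 2 ∧ ¬ (p : ℤ) ∣ r ∧ ¬ (p : ℤ) ∣ s ∧ ¬ (p : ℤ) ∣ r - s := by
  intro p hp hzp
  have hnd : ∀ m : ℤ, m ≠ 0 → m.natAbs ≤ r.natAbs + s.natAbs → ¬ (p : ℤ) ∣ m := by
    intro m hm hle h
    have := Nat.le_of_dvd (Int.natAbs_pos.2 hm) (Int.natCast_dvd.1 h)
    omega
  exact ⟨by omega, hnd r hr (by omega), hnd s hs (by omega),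
    hnd (r - s) (sub_ne_zero.2 hrs) (Int.natAbs_sub_le r s)⟩

/-- the integers `t`, `|t| ≤ X`, with `D (t) ≠ 0` for which fewer than `(log X) ^ c` of the curves
are everywhere locally soluble -/
noncomputable def Few (r s : ℤ) (D : ℤ[X]) (c : ℝ) (X : ℕ) : Finset ℤ := by
  classical exact
  (Icc (-(X : ℤ)) X).filter (fun t => D.eval t ≠ 0 ∧
    ((Els r s (D.eval t)).ncard : ℝ) < (Real.log X) ^ c)

theorem fewT {r s : ℤ} (hr : r ≠ 0) (hs : s ≠ 0) (hrs : r ≠ s) {D : ℤ[X]} {κ : ℝ} (hκ : 0 < κ)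
    (h : Dat (r * s) D κ) {ε : ℝ} (hε : 0 < ε) :
    Tendsto (fun X : ℕ => ((Few r s D (κ * Real.log 2 - ε) X).card : ℝ) / X) atTop (𝓝 0) := by
  classical
  obtain ⟨c, g, G, d, z', hc, hg, hG, hcg, hPg, hM⟩ := h
  set Z : Finset ℤ := g.roots.toFinset with hZ
  rw [Metric.tendsto_atTop]
  intro δ hδ
  obtain ⟨z2, hz2⟩ := exists_nat_ge (12 * d / (δ / 4))
  obtain ⟨z, hz⟩ : ∃ z, z = z' + z2 + c.natAbs + (2 + r.natAbs + s.natAbs) := ⟨_, rfl⟩
  have hzp := good_z hr hs hrs (z := z) (by omega)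
  have h1 := norm_main hPg hκ hM (z := z) (by omega) (by omega) hε (show 0 < δ / 4 by linarith)
    (hz2.trans (by exact_mod_cast (by omega : z2 ≤ z))) (A := 4 * 2 ^ z) (by positivity)
  obtain ⟨X1, hX1⟩ := eventually_atTop.1 h1
  obtain ⟨X2, hX2⟩ := exists_nat_ge (4 * Z.card / δ)
  refine ⟨X1 + X2 + 1, fun X hX => ?_⟩
  have hXr : (0 : ℝ) < X := by exact_mod_cast (by omega : 0 < X)
  rw [Real.dist_eq, sub_zero, abs_of_nonneg (by positivity), div_lt_iff₀ hXr]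
  have hsub : Few r s D (κ * Real.log 2 - ε) X ⊆
      Ex G (r * s) z (4 * 2 ^ z) (κ * Real.log 2 - ε) X ∪ Z := by
    intro t ht
    unfold Few at ht
    rw [mem_filter] at ht
    rw [Finset.mem_union]
    by_cases hgt : g.eval t = 0
    · right
      rw [hZ, Multiset.mem_toFinset, mem_roots hg]
      exact hgt
    · left
      unfold Ex
      rw [mem_filter]
      refine ⟨ht.1, ?_⟩
      by_cases hq : ∃ p ∈ Ioc z (rt8 X), p.Prime ∧ (p : ℤ) ^ 2 ∣ G.eval t
      · exact Or.inl hq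
      · right
        have h2 := om_le_oz (n := r * s) hc hcg (by omega : c.natAbs ≤ z) ht.2.1 hgt hq
        have h3 := low hr hs hrs ht.2.1 hzp
        have h4 : 2 ^ om G (PM (r * s) (rt8 X) \ PM (r * s) z) t ≤
            4 * 2 ^ z * (Els r s (D.eval t)).ncard :=
          (Nat.pow_le_pow_right (by norm_num) h2).trans h3
        have h5 : (2 : ℝ) ^ om G (PM (r * s) (rt8 X) \ PM (r * s) z) t ≤
            4 * 2 ^ z * ((Els r s (D.eval t)).ncard : ℝ) := by exact_mod_cast h4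
        refine h5.trans_lt ?_
        exact mul_lt_mul_of_pos_left ht.2.2 (by positivity)
  have h2 : ((Few r s D (κ * Real.log 2 - ε) X).card : ℝ) ≤
      ((Ex G (r * s) z (4 * 2 ^ z) (κ * Real.log 2 - ε) X).card : ℝ) + Z.card := by
    exact_mod_cast (card_le_card hsub).trans (card_union_le _ _)
  have h3 := hX1 X (by omega)
  have h4 : (Z.card : ℝ) ≤ δ / 4 * X := by
    have h5 : (4 * Z.card / δ : ℝ) ≤ X := hX2.trans (by exact_mod_cast (by omega : X2 ≤ X))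
    rw [div_le_iff₀ hδ] at h5
    linarith
  have h5 : 0 < δ * X := mul_pos hδ hXr
  linarith

/-- the integers `t`, `|t| ≤ X`, with `D (t) ≠ 0` -/
noncomputable def Nz (D : ℤ[X]) (X : ℕ) : Finset ℤ :=
  (Icc (-(X : ℤ)) X).filter (fun t => D.eval t ≠ 0)

theorem avgT {r s : ℤ} (hr : r ≠ 0) (hs : s ≠ 0) (hrs : r ≠ s) {D : ℤ[X]} {κ : ℝ} (hκ : 0 < κ)
    (h : Dat (r * s) D κ) {ε : ℝ} (hε : 0 < ε) :
    ∀ᶠ X : ℕ in atTop, (X : ℝ) * (Real.log X) ^ (κ - ε) ≤
      ∑ t ∈ Nz D X, ((Els r s (D.eval t)).ncard : ℝ) := by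
  classical
  obtain ⟨c, g, G, d, z', hc, hg, hG, hcg, hPg, hM⟩ := h
  set Z : Finset ℤ := g.roots.toFinset with hZ
  set Z2 : Finset ℤ := G.roots.toFinset with hZ2
  obtain ⟨z, hz⟩ : ∃ z, z = z' + (16 * d + 1) + c.natAbs + (2 + r.natAbs + s.natAbs) := ⟨_, rfl⟩
  have hzp := good_z hr hs hrs (z := z) (by omega)
  -- the exponent
  obtain ⟨ε1, hε1⟩ : ∃ e, e = min ε κ := ⟨_, rfl⟩
  have hε10 : 0 < ε1 := by rw [hε1]; exact lt_min hε hκ
  have hε11 : ε1 ≤ ε := by rw [hε1]; exact min_le_left _ _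
  have hε12 : ε1 ≤ κ := by rw [hε1]; exact min_le_right _ _
  have h1 := avg_main hPg hκ hM (z := z) (by omega) (by omega) (ε := ε1 / 2) (by linarith)
  -- the constant
  set CZ : ℝ := (∑ t ∈ Z, (2 : ℝ) ^ (G.eval t).natAbs.primeFactors.card) + Z2.card + 1 with hCZ
  have hCZ0 : 0 ≤ CZ := by positivity
  have hlogt : Tendsto (fun X : ℕ => Real.log X) atTop atTop :=
    Real.tendsto_log_atTop.comp tendsto_natCast_atTop_atTop
  have ev1 : ∀ᶠ X : ℕ in atTop, (4 * 2 ^ z : ℝ) + 1 ≤ (Real.log X) ^ (ε1 / 2) :=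
    ((tendsto_rpow_atTop (by linarith)).comp hlogt).eventually_ge_atTop _
  filter_upwards [h1, ev1, hlogt.eventually_ge_atTop 1,
    (tendsto_natCast_atTop_atTop (R := ℝ)).eventually_ge_atTop CZ, eventually_ge_atTop 1] with
    X h2 h3 h4 h5 h6
  obtain ⟨y, hzy, h2⟩ := h2
  have hX0 : (0 : ℝ) ≤ X := Nat.cast_nonneg X
  have hIoc : Ioc (-(X : ℤ) - 1) X = Icc (-(X : ℤ)) X := by
    ext t
    rw [mem_Ioc, mem_Icc]
    omega
  set P := PM (r * s) y \ PM (r * s) z with hP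
  set Gd := (Ioc (-(X : ℤ) - 1) X).filter (fun t : ℤ =>
        ¬ ∃ p ∈ Ioc z y, p.Prime ∧ (p : ℤ) ^ 2 ∣ G.eval t) with hGd
  -- the values
  have h7 : ∀ t ∈ Gd, (2 : ℝ) ^ om G P t ≤
      (if D.eval t ≠ 0 then (4 * 2 ^ z : ℝ) * ((Els r s (D.eval t)).ncard : ℝ) else 0) +
      ((if t ∈ Z then (2 : ℝ) ^ (G.eval t).natAbs.primeFactors.card else 0) +
        (if t ∈ Z2 then 1 else 0)) := by
    intro t ht
    rw [hGd, mem_filter] at ht
    have hsqf := ht.2
    have p1 : (0 : ℝ) ≤ (if D.eval t ≠ 0 then (4 * 2 ^ z : ℝ) *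
        ((Els r s (D.eval t)).ncard : ℝ) else 0) := by
      split_ifs <;> positivity
    have p2 : (0 : ℝ) ≤ (if t ∈ Z then (2 : ℝ) ^ (G.eval t).natAbs.primeFactors.card else 0) := by
      split_ifs <;> positivity
    have p3 : (0 : ℝ) ≤ (if t ∈ Z2 then (1 : ℝ) else 0) := by
      split_ifs <;> positivity
    by_cases hGt : G.eval t = 0
    · have h8 : t ∈ Z2 := by
        rw [hZ2, Multiset.mem_toFinset, mem_roots hG]
        exact hGt
      have h9 : om G P t = 0 := by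
        unfold om
        rw [card_eq_zero, filter_eq_empty_iff]
        intro p hp _
        obtain ⟨q1, q2, q3⟩ := PM_diff hp
        apply hsqf
        refine ⟨p, mem_Ioc.2 ⟨q2, q3⟩, q1, ?_⟩
        rw [hGt]
        exact dvd_zero _
      rw [h9, pow_zero, if_pos h8]
      linarith
    by_cases hgt : g.eval t = 0
    · have h8 : t ∈ Z := by
        rw [hZ, Multiset.mem_toFinset, mem_roots hg]
        exact hgt
      have h9 : om G P t ≤ (G.eval t).natAbs.primeFactors.card := by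
        unfold om
        refine card_le_card fun p hp => ?_
        rw [mem_filter] at hp
        rw [Nat.mem_primeFactors]
        exact ⟨(PM_diff hp.1).1, Int.natCast_dvd.1 hp.2, Int.natAbs_ne_zero.2 hGt⟩
      have h10 : (2 : ℝ) ^ om G P t ≤ 2 ^ (G.eval t).natAbs.primeFactors.card :=
        pow_le_pow_right₀ (by norm_num) h9
      rw [if_pos h8]
      rw [if_pos h8] at p2
      linarith
    · have hDt : D.eval t ≠ 0 := by
        intro h0
        have h8 := congrArg (eval t) hcg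
        rw [eval_mul, eval_mul, h0, mul_zero, eval_pow] at h8
        exact mul_ne_zero (pow_ne_zero 2 hgt) hGt h8.symm
      rw [if_pos hDt]
      have h8 := om_le_oz (n := r * s) hc hcg (by omega : c.natAbs ≤ z) hDt hgt hsqf
      have h9 := low hr hs hrs hDt hzp
      have h10 : 2 ^ om G P t ≤ 4 * 2 ^ z * (Els r s (D.eval t)).ncard :=
        (Nat.pow_le_pow_right (by norm_num) h8).trans h9
      have h11 : (2 : ℝ) ^ om G P t ≤ 4 * 2 ^ z * ((Els r s (D.eval t)).ncard : ℝ) := by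
        exact_mod_cast h10
      linarith
  have h8 : ∑ t ∈ Gd, (2 : ℝ) ^ om G P t ≤ (4 * 2 ^ z : ℝ) *
      (∑ t ∈ Nz D X, ((Els r s (D.eval t)).ncard : ℝ)) + CZ := by
    refine (sum_le_sum h7).trans ?_
    rw [sum_add_distrib, sum_add_distrib]
    have q1 : ∑ t ∈ Gd, (if D.eval t ≠ 0 then (4 * 2 ^ z : ℝ) *
        ((Els r s (D.eval t)).ncard : ℝ) else 0) ≤ (4 * 2 ^ z : ℝ) *
      (∑ t ∈ Nz D X, ((Els r s (D.eval t)).ncard : ℝ)) := by
      rw [← sum_filter, mul_sum]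
      refine sum_le_sum_of_subset_of_nonneg ?_ fun t _ _ => by positivity
      intro t ht
      rw [mem_filter, hGd, mem_filter, hIoc] at ht
      unfold Nz
      rw [mem_filter]
      exact ⟨ht.1.1, ht.2⟩
    have q2 : ∑ t ∈ Gd, (if t ∈ Z then (2 : ℝ) ^ (G.eval t).natAbs.primeFactors.card else 0) ≤
        ∑ t ∈ Z, (2 : ℝ) ^ (G.eval t).natAbs.primeFactors.card := by
      rw [← sum_filter]
      refine sum_le_sum_of_subset_of_nonneg ?_ fun t _ _ => by positivity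
      intro t ht
      exact (mem_filter.1 ht).2
    have q3 : ∑ t ∈ Gd, (if t ∈ Z2 then (1 : ℝ) else 0) ≤ Z2.card := by
      rw [← sum_filter, sum_const, nsmul_eq_mul, mul_one]
      have : Gd.filter (fun t => t ∈ Z2) ⊆ Z2 := fun t ht => (mem_filter.1 ht).2
      exact_mod_cast card_le_card this
    rw [hCZ]
    linarith
  -- the powers of the logarithm
  have hL0 : 0 < Real.log X := by linarith
  have h9 : (Real.log X) ^ (κ - ε) ≤ (Real.log X) ^ (κ - ε1) :=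
    Real.rpow_le_rpow_of_exponent_le h4 (by linarith)
  have h10 : (1 : ℝ) ≤ (Real.log X) ^ (κ - ε1) := Real.one_le_rpow h4 (by linarith)
  have h11 : (Real.log X) ^ (κ - ε1 / 2) = (Real.log X) ^ (κ - ε1) * (Real.log X) ^ (ε1 / 2) := by
    rw [← Real.rpow_add hL0]
    congr 1
    ring
  have h12 : (X : ℝ) * (Real.log X) ^ (κ - ε1) * ((4 * 2 ^ z : ℝ) + 1) ≤
      (4 * 2 ^ z : ℝ) * (∑ t ∈ Nz D X, ((Els r s (D.eval t)).ncard : ℝ)) + CZ := by
    refine le_trans ?_ (h2.trans h8)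
    rw [h11, ← mul_assoc]
    exact mul_le_mul_of_nonneg_left h3 (by positivity)
  have h13 : CZ ≤ X * (Real.log X) ^ (κ - ε1) := h5.trans (le_mul_of_one_le_right hX0 h10)
  have h14 : (4 * 2 ^ z : ℝ) * ((X : ℝ) * (Real.log X) ^ (κ - ε1)) ≤
      (4 * 2 ^ z : ℝ) * (∑ t ∈ Nz D X, ((Els r s (D.eval t)).ncard : ℝ)) := by linarith
  have h15 := le_of_mul_le_mul_left h14 (by positivity)
  refine le_trans ?_ h15
  exact mul_le_mul_of_nonneg_left h9 hX0

/-- the moments of the number of the curves with rational points or orthogonal adelic points -/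
theorem momT {r s : ℤ} (hr : r ≠ 0) (hs : s ≠ 0) (hrs : r ≠ s) {D : ℤ[X]} (hD : D ≠ 0) (j : ℕ) :
    ∃ C0 : ℝ, ∀ X : ℕ, 1 ≤ X → ∑ t ∈ Nz D X,
      ((Rat r s (D.eval t) ∪ Orth r s (D.eval t)).ncard : ℝ) ^ j ≤ C0 * X := by
  obtain ⟨C0, hC0⟩ := ss_all hD hr hs hrs j
  refine ⟨2 ^ j * (C0 + 2 ^ j * 3), fun X hX => ?_⟩
  have hXr : (1 : ℝ) ≤ X := by exact_mod_cast hX
  have h1 : ∀ t ∈ Nz D X, ((Rat r s (D.eval t) ∪ Orth r s (D.eval t)).ncard : ℝ) ^ j ≤
      2 ^ j * ((ss (r * D.eval t) (s * D.eval t) : ℝ) ^ j + 2 ^ j) := by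
    intro t ht
    unfold Nz at ht
    have h2 := (orth_le hr hs hrs (mem_filter.1 ht).2).2
    have h3 : ((Rat r s (D.eval t) ∪ Orth r s (D.eval t)).ncard : ℝ) ≤
        (ss (r * D.eval t) (s * D.eval t) : ℝ) + 2 := by exact_mod_cast h2
    obtain ⟨u, hu⟩ : ∃ u : ℝ, u = (ss (r * D.eval t) (s * D.eval t) : ℝ) := ⟨_, rfl⟩
    rw [← hu] at h3 ⊢
    have hu0 : 0 ≤ u := by rw [hu]; exact Nat.cast_nonneg _
    refine (pow_le_pow_left₀ (Nat.cast_nonneg _) h3 j).trans ?_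
    rcases le_total u 2 with h4 | h4
    · calc (u + 2) ^ j ≤ (2 * 2) ^ j := pow_le_pow_left₀ (by linarith) (by linarith) j
        _ = 2 ^ j * 2 ^ j := mul_pow _ _ _
        _ ≤ 2 ^ j * (u ^ j + 2 ^ j) := by
            apply mul_le_mul_of_nonneg_left _ (by positivity)
            have := pow_nonneg hu0 j
            linarith
    · calc (u + 2) ^ j ≤ (2 * u) ^ j := pow_le_pow_left₀ (by linarith) (by linarith) j
        _ = 2 ^ j * u ^ j := mul_pow _ _ _
        _ ≤ 2 ^ j * (u ^ j + 2 ^ j) := by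
            apply mul_le_mul_of_nonneg_left _ (by positivity)
            have : (0 : ℝ) ≤ 2 ^ j := by positivity
            linarith
  have h2 : ∑ t ∈ Nz D X, (ss (r * D.eval t) (s * D.eval t) : ℝ) ^ j ≤ C0 * X := by
    refine le_trans ?_ (hC0 X hX)
    exact sum_le_sum_of_subset_of_nonneg (filter_subset _ _) fun t _ _ => by positivity
  have h3 : ((Nz D X).card : ℝ) ≤ 3 * X := by
    have h4 : (Nz D X).card ≤ (Icc (-(X : ℤ)) X).card := card_le_card (filter_subset _ _)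
    rw [Int.card_Icc] at h4
    have h5 : (Nz D X).card ≤ 3 * X := by omega
    exact_mod_cast h5
  calc ∑ t ∈ Nz D X, ((Rat r s (D.eval t) ∪ Orth r s (D.eval t)).ncard : ℝ) ^ j
      ≤ ∑ t ∈ Nz D X, 2 ^ j * ((ss (r * D.eval t) (s * D.eval t) : ℝ) ^ j + 2 ^ j) :=
        sum_le_sum h1
    _ = 2 ^ j * (∑ t ∈ Nz D X, (ss (r * D.eval t) (s * D.eval t) : ℝ) ^ j +
          (Nz D X).card * 2 ^ j) := by
        rw [← mul_sum, sum_add_distrib, sum_const, nsmul_eq_mul]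
    _ ≤ 2 ^ j * (C0 * X + (3 * X) * 2 ^ j) := by
        apply mul_le_mul_of_nonneg_left _ (by positivity)
        have h4 := mul_le_mul_of_nonneg_right h3 (show (0 : ℝ) ≤ 2 ^ j by positivity)
        linarith
    _ = _ := by ring

/-- the proportion -/
theorem ratT {r s : ℤ} (hr : r ≠ 0) (hs : s ≠ 0) (hrs : r ≠ s) {D : ℤ[X]} (hD : D ≠ 0) {κ : ℝ}
    (hκ : 0 < κ) (h : Dat (r * s) D κ) {ε : ℝ} (hε : 0 < ε) :
    ∀ᶠ X : ℕ in atTop, ∑ t ∈ Nz D X, ((Rat r s (D.eval t) ∪ Orth r s (D.eval t)).ncard : ℝ) ≤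
      (Real.log X) ^ (ε - κ) * ∑ t ∈ Nz D X, ((Els r s (D.eval t)).ncard : ℝ) := by
  obtain ⟨C0, hC0⟩ := momT hr hs hrs hD 1
  have h1 := avgT hr hs hrs hκ h (show 0 < ε / 2 by linarith)
  have hlogt : Tendsto (fun X : ℕ => Real.log X) atTop atTop :=
    Real.tendsto_log_atTop.comp tendsto_natCast_atTop_atTop
  have ev1 : ∀ᶠ X : ℕ in atTop, C0 ≤ (Real.log X) ^ (ε / 2) :=
    ((tendsto_rpow_atTop (by linarith)).comp hlogt).eventually_ge_atTop _
  filter_upwards [h1, ev1, hlogt.eventually_ge_atTop 1, eventually_ge_atTop 1] with X h2 h3 h4 h5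
  have hL0 : 0 < Real.log X := by linarith
  have h6 := hC0 X h5
  simp only [pow_one] at h6
  refine h6.trans ?_
  calc C0 * X ≤ (Real.log X) ^ (ε / 2) * X := mul_le_mul_of_nonneg_right h3 (Nat.cast_nonneg _)
    _ = (Real.log X) ^ (ε - κ) * (X * (Real.log X) ^ (κ - ε / 2)) := by
        have h7 : (Real.log X) ^ (ε / 2) = (Real.log X) ^ (ε - κ) * (Real.log X) ^ (κ - ε / 2) := by
          rw [← Real.rpow_add hL0]
          congr 1
          ring
        rw [h7]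
        ring
    _ ≤ _ := mul_le_mul_of_nonneg_left h2 (Real.rpow_nonneg hL0.le _)

/-- a rational point is an adelic point -/
lemma rat_sub_els {r s d : ℤ} : Rat r s d ⊆ Els r s d := by
  rintro c ⟨hc, k, hk, ⟨x, w, y, hne, heq⟩⟩
  refine ⟨hc, k, hk, ?_⟩
  rw [prod_ff] at heq
  have key : ∀ (F : Type) [Field F] [CharZero F], Nonempty (Point (ff (r * k) (s * k)) c F) := by
    intro F _ _
    refine ⟨⟨(x : F), (w : F), (y : F), ?_, ?_⟩⟩
    · rcases hne with h | h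
      · exact Or.inl (Rat.cast_ne_zero.2 h)
      · exact Or.inr (Rat.cast_ne_zero.2 h)
    · rw [prod_ff]
      have := congrArg (Rat.cast : ℚ → F) heq
      push_cast at this ⊢
      exact this
  exact adelic_of (key ℝ) (fun p => key _)

lemma orth_sub_els {r s d : ℤ} : Orth r s d ⊆ Els r s d := by
  rintro c ⟨hc, k, hk, P, -⟩
  exact ⟨hc, k, hk, ⟨P⟩⟩

end Pool.Agent.U409.HP
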