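import Pool.Agent.U409.LS.Sq

/-!
# The average of `2 ^ ω` over the values of a polynomial: a lower bound
-/

set_option autoImplicit false

namespace Pool.Agent.U409.HP

open Polynomial Finset
open Pool.Agent.H474R2.PG (rho count_class)
open Pool.Agent.U214.PT (Pg lift_inj)
open Pool.Agent.U409.LS (om SS)

/-- the values divisible by the primes of a set and by the square of a prime -/
lemma sq_joint (f : ℤ[X]) {d z : ℕ} (hf : Pg f d z) (A B : ℤ) (hAB : A ≤ B) {p : ℕ} (hp : p.Prime)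
    (hzp : z < p) (T : Finset ℕ) (hT : ∀ q ∈ T, q.Prime ∧ q ≠ p) :
    (((Ioc A B).filter (fun t : ℤ => (p : ℤ) ^ 2 ∣ f.eval t ∧ ∀ q ∈ T, (q : ℤ) ∣ f.eval t)).card : ℝ)
      ≤ d * (((B : ℝ) - A) * ((p : ℝ) ^ 2)⁻¹ * ∏ q ∈ T, (rho f q : ℝ) / q +
        ∏ q ∈ T, (rho f q : ℝ)) := by
  set Z := (range p).filter (fun a : ℕ => (p : ℤ) ∣ f.eval (a : ℤ)) with hZ
  have hZc : Z.card = rho f p := rfl
  have hp0 : (0 : ℤ) < p := by exact_mod_cast hp.pos
  set F := (Ioc A B).filter (fun t : ℤ => (p : ℤ) ^ 2 ∣ f.eval t ∧ ∀ q ∈ T, (q : ℤ) ∣ f.eval t)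
    with hF
  have hmod : ∀ a : ℤ, (((a % (p : ℤ)).toNat : ℕ) : ℤ) = a % (p : ℤ) :=
    fun a => Int.toNat_of_nonneg (Int.emod_nonneg _ hp0.ne')
  have hdvd : ∀ a : ℤ, (p : ℤ) ∣ a - ((a % (p : ℤ)).toNat : ℕ) := by
    intro a
    rw [hmod]
    exact Int.dvd_self_sub_emod
  have hpp : ∀ t ∈ F, (p : ℤ) ∣ f.eval t := by
    intro t ht
    exact (dvd_pow_self _ two_ne_zero).trans (mem_filter.1 ht).2.1
  have hmaps : Set.MapsTo (fun a : ℤ => (a % (p : ℤ)).toNat) (F : Set ℤ) (Z : Set ℕ) := by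
    intro a ha
    rw [mem_coe, hZ, mem_filter, mem_range]
    constructor
    · have h1 := Int.emod_lt_of_pos a hp0
      have h2 := hmod a
      show (a % (p : ℤ)).toNat < p
      omega
    · exact (Pool.Agent.H474R2.PG.eval_dvd_congr f p _ _ (hdvd a)).1 (hpp a ha)
  rw [card_eq_sum_card_fiberwise hmaps]
  push_cast
  have hZd : (Z.card : ℝ) ≤ d := by
    rw [hZc]
    exact_mod_cast hf.rho p hp hzp
  have h0 : (0 : ℝ) ≤ (B : ℝ) - A := by
    rw [sub_nonneg]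
    exact_mod_cast hAB
  have hpr0 : (0 : ℝ) ≤ ∏ q ∈ T, (rho f q : ℝ) / q := prod_nonneg fun q _ => by positivity
  have hpr1 : (0 : ℝ) ≤ ∏ q ∈ T, (rho f q : ℝ) := prod_nonneg fun q _ => by positivity
  calc ∑ b ∈ Z, ((F.filter (fun a : ℤ => (a % (p : ℤ)).toNat = b)).card : ℝ)
      ≤ ∑ b ∈ Z, (((B : ℝ) - A) * ((p : ℝ) ^ 2)⁻¹ * ∏ q ∈ T, (rho f q : ℝ) / q +
        ∏ q ∈ T, (rho f q : ℝ)) := by
        refine sum_le_sum fun b _ => ?_
        rcases (F.filter (fun a : ℤ => (a % (p : ℤ)).toNat = b)).eq_empty_or_nonempty with h | ⟨t0, h⟩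
        · rw [h, card_empty, Nat.cast_zero]
          positivity
        · rw [mem_filter] at h
          have hq : 1 ≤ p ^ 2 := Nat.one_le_pow _ _ hp.pos
          have h1 := (abs_le.1 (count_class f A B hAB (p ^ 2) hq t0 T (fun q hq => ⟨(hT q hq).1, by
            intro h3
            have h4 := (hT q hq).1.dvd_of_dvd_pow h3
            exact (hT q hq).2 ((Nat.prime_dvd_prime_iff_eq (hT q hq).1 hp).1 h4)⟩)
            (fun _ => 0))).2
          have h2 : (F.filter (fun a : ℤ => (a % (p : ℤ)).toNat = b)) ⊆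
              (Ioc A B).filter (fun x => ((p ^ 2 : ℕ) : ℤ) ∣ x - t0 ∧
                ∀ q ∈ T, (q : ℤ) ∣ f.eval (x + 0)) := by
            intro t ht
            rw [mem_filter] at ht
            have ht' := mem_filter.1 ht.1
            rw [mem_filter]
            refine ⟨ht'.1, ?_, ?_⟩
            · push_cast
              refine lift_inj (f := f) hp ?_ ?_ ?_
              · have h3 := hdvd t
                have h4 := hdvd t0
                rw [ht.2] at h3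
                rw [h.2] at h4
                have h5 := dvd_sub h3 h4
                simpa using h5
              · exact dvd_sub ht'.2.1 (mem_filter.1 h.1).2.1
              · exact hf.der p hp hzp t0 (hpp t0 h.1)
            · intro q hq
              rw [add_zero]
              exact ht'.2.2 q hq
          have h3 : ((F.filter (fun a : ℤ => (a % (p : ℤ)).toNat = b)).card : ℝ) ≤
              (((Ioc A B).filter (fun x => ((p ^ 2 : ℕ) : ℤ) ∣ x - t0 ∧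
                ∀ q ∈ T, (q : ℤ) ∣ f.eval (x + 0))).card : ℝ) := by
            exact_mod_cast card_le_card h2
          push_cast at h1 h3 ⊢
          rw [div_eq_mul_inv] at h1
          linarith
    _ = Z.card * (((B : ℝ) - A) * ((p : ℝ) ^ 2)⁻¹ * ∏ q ∈ T, (rho f q : ℝ) / q +
        ∏ q ∈ T, (rho f q : ℝ)) := by
        rw [sum_const, nsmul_eq_mul]
    _ ≤ _ := mul_le_mul_of_nonneg_right hZd (by positivity)

/-- the truncated sum -/
noncomputable def EJ (f : ℤ[X]) (P : Finset ℕ) (J : ℕ) : ℝ :=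
  ∑ S ∈ P.powerset.filter (fun S : Finset ℕ => S.card ≤ J), ∏ q ∈ S, (rho f q : ℝ) / q

/-- the number of the small subsets of the prime divisors -/
def TJ (f : ℤ[X]) (P : Finset ℕ) (J : ℕ) (t : ℤ) : ℕ :=
  ((P.powerset.filter (fun S : Finset ℕ => S.card ≤ J)).filter
    (fun S : Finset ℕ => ∀ q ∈ S, (q : ℤ) ∣ f.eval t)).card

lemma TJ_le (f : ℤ[X]) (P : Finset ℕ) (J : ℕ) (t : ℤ) : TJ f P J t ≤ 2 ^ om f P t := by
  unfold TJ om
  rw [← card_powerset]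
  refine card_le_card fun S hS => ?_
  rw [mem_filter, mem_filter, mem_powerset] at hS
  rw [mem_powerset]
  intro q hq
  rw [mem_filter]
  exact ⟨hS.1.1 hq, hS.2 q hq⟩

lemma EJ_nonneg (f : ℤ[X]) (P : Finset ℕ) (J : ℕ) : 0 ≤ EJ f P J :=
  sum_nonneg fun S _ => prod_nonneg fun q _ => by positivity

lemma prod_rho_le (f : ℤ[X]) {P : Finset ℕ} {y : ℕ} (hP : ∀ q ∈ P, q.Prime ∧ q ≤ y) {J : ℕ}
    {S : Finset ℕ} (hS : S ⊆ P) (hJ : S.card ≤ J) (hy : 1 ≤ y) :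
    ∏ q ∈ S, (rho f q : ℝ) ≤ (∏ q ∈ S, (rho f q : ℝ) / q) * (y : ℝ) ^ J := by
  have h1 : ∏ q ∈ S, (rho f q : ℝ) = (∏ q ∈ S, (rho f q : ℝ) / q) * ∏ q ∈ S, (q : ℝ) := by
    rw [← prod_mul_distrib]
    refine prod_congr rfl fun q hq => ?_
    have : (q : ℝ) ≠ 0 := by exact_mod_cast (hP q (hS hq)).1.ne_zero
    field_simp
  rw [h1]
  apply mul_le_mul_of_nonneg_left _ (prod_nonneg fun q _ => by positivity)
  have hyr : (1 : ℝ) ≤ y := by exact_mod_cast hy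
  calc ∏ q ∈ S, (q : ℝ) ≤ ∏ q ∈ S, (y : ℝ) :=
        prod_le_prod (fun q _ => Nat.cast_nonneg q) fun q hq => by
          exact_mod_cast (hP q (hS hq)).2
    _ = (y : ℝ) ^ S.card := prod_const _
    _ ≤ (y : ℝ) ^ J := pow_le_pow_right₀ hyr hJ

/-- the main term -/
lemma TJ_sum (f : ℤ[X]) (A B : ℤ) (hAB : A ≤ B) {P : Finset ℕ} {y : ℕ}
    (hP : ∀ q ∈ P, q.Prime ∧ q ≤ y) (hy : 1 ≤ y) (J : ℕ) :
    (((B : ℝ) - A) - (y : ℝ) ^ J) * EJ f P J ≤ ∑ t ∈ Ioc A B, (TJ f P J t : ℝ) := by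
  have e1 : ∑ t ∈ Ioc A B, (TJ f P J t : ℝ) = ∑ S ∈ P.powerset.filter (fun S : Finset ℕ => S.card ≤ J),
      (((Ioc A B).filter (fun t : ℤ => ∀ q ∈ S, (q : ℤ) ∣ f.eval t)).card : ℝ) := by
    unfold TJ
    simp only [card_filter, Nat.cast_sum]
    rw [sum_comm]
  rw [e1]
  unfold EJ
  rw [mul_sum]
  refine sum_le_sum fun S hS => ?_
  rw [mem_filter, mem_powerset] at hS
  have h1 := (abs_le.1 (count_class f A B hAB 1 le_rfl 0 S (fun q hq =>
    ⟨(hP q (hS.1 hq)).1, fun h => (hP q (hS.1 hq)).1.one_lt.ne' (Nat.dvd_one.1 h)⟩)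
    (fun _ => 0))).1
  simp only [Nat.cast_one, one_dvd, true_and, add_zero, div_one] at h1
  have h2 := prod_rho_le f hP hS.1 hS.2 hy
  linarith

/-- the values with a square divisor -/
lemma TJ_sq (f : ℤ[X]) {d z z' y : ℕ} (hf : Pg f d z') (hz : z' ≤ z) (A B : ℤ) (hAB : A ≤ B)
    {P : Finset ℕ} (hP : ∀ q ∈ P, q.Prime ∧ q ≤ y) (hy : 1 ≤ y) (J : ℕ) {p : ℕ} (hp : p.Prime)
    (hzp : z < p) :
    ∑ t ∈ (Ioc A B).filter (fun t : ℤ => (p : ℤ) ^ 2 ∣ f.eval t), (TJ f P J t : ℝ) ≤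
      2 * (d * (((B : ℝ) - A) * ((p : ℝ) ^ 2)⁻¹ + (y : ℝ) ^ J) * EJ f P J) := by
  have h0 : (0 : ℝ) ≤ (B : ℝ) - A := by
    rw [sub_nonneg]
    exact_mod_cast hAB
  have e1 : ∑ t ∈ (Ioc A B).filter (fun t : ℤ => (p : ℤ) ^ 2 ∣ f.eval t), (TJ f P J t : ℝ) =
      ∑ S ∈ P.powerset.filter (fun S : Finset ℕ => S.card ≤ J),
      (((Ioc A B).filter (fun t : ℤ => (p : ℤ) ^ 2 ∣ f.eval t ∧
        ∀ q ∈ S, (q : ℤ) ∣ f.eval t)).card : ℝ) := by
    unfold TJ
    simp only [card_filter, Nat.cast_sum]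
    rw [sum_comm]
    refine sum_congr rfl fun S _ => ?_
    rw [sum_filter]
    refine sum_congr rfl fun t _ => ?_
    by_cases h : (p : ℤ) ^ 2 ∣ f.eval t <;> simp [h]
  rw [e1]
  set W := P.powerset.filter (fun S : Finset ℕ => S.card ≤ J) with hW
  set K : ℝ := d * (((B : ℝ) - A) * ((p : ℝ) ^ 2)⁻¹ + (y : ℝ) ^ J) with hK
  have hK0 : 0 ≤ K := by positivity
  set g : Finset ℕ → ℝ := fun S => ∏ q ∈ S, (rho f q : ℝ) / q with hg
  have hg0 : ∀ S, 0 ≤ g S := fun S => prod_nonneg fun q _ => by positivity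
  have hb : ∀ S ∈ W, (((Ioc A B).filter (fun t : ℤ => (p : ℤ) ^ 2 ∣ f.eval t ∧
        ∀ q ∈ S, (q : ℤ) ∣ f.eval t)).card : ℝ) ≤ K * g (S.erase p) := by
    intro S hS
    rw [hW, mem_filter, mem_powerset] at hS
    have h1 := sq_joint f hf A B hAB hp (lt_of_le_of_lt hz hzp) (S.erase p) (fun q hq =>
      ⟨(hP q (hS.1 (mem_of_mem_erase hq))).1, ne_of_mem_erase hq⟩)
    have h2 : ((Ioc A B).filter (fun t : ℤ => (p : ℤ) ^ 2 ∣ f.eval t ∧
        ∀ q ∈ S, (q : ℤ) ∣ f.eval t)).card ≤ ((Ioc A B).filter (fun t : ℤ =>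
          (p : ℤ) ^ 2 ∣ f.eval t ∧ ∀ q ∈ S.erase p, (q : ℤ) ∣ f.eval t)).card := by
      refine card_le_card fun t ht => ?_
      rw [mem_filter] at ht ⊢
      exact ⟨ht.1, ht.2.1, fun q hq => ht.2.2 q (mem_of_mem_erase hq)⟩
    have h3 := prod_rho_le f hP (S := S.erase p) (J := J) ((erase_subset _ _).trans hS.1)
      ((card_erase_le).trans hS.2) hy
    have h4 : (((Ioc A B).filter (fun t : ℤ => (p : ℤ) ^ 2 ∣ f.eval t ∧
        ∀ q ∈ S, (q : ℤ) ∣ f.eval t)).card : ℝ) ≤ (((Ioc A B).filter (fun t : ℤ =>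
          (p : ℤ) ^ 2 ∣ f.eval t ∧ ∀ q ∈ S.erase p, (q : ℤ) ∣ f.eval t)).card : ℝ) := by
      exact_mod_cast h2
    refine h4.trans (h1.trans ?_)
    have h5 : K * g (S.erase p) = d * (((B : ℝ) - A) * ((p : ℝ) ^ 2)⁻¹ * g (S.erase p) +
        g (S.erase p) * (y : ℝ) ^ J) := by
      rw [hK]
      ring
    rw [h5]
    apply mul_le_mul_of_nonneg_left _ (Nat.cast_nonneg _)
    exact add_le_add le_rfl h3
  have hsum : ∑ S ∈ W, g (S.erase p) ≤ 2 * ∑ S ∈ W, g S := by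
    rw [← sum_filter_add_sum_filter_not W (fun S => p ∈ S), two_mul]
    apply add_le_add
    · rw [← sum_image (f := g) (g := fun S : Finset ℕ => S.erase p)
        (s := W.filter (fun S => p ∈ S))]
      · refine sum_le_sum_of_subset_of_nonneg ?_ fun S _ _ => hg0 S
        intro S hS
        obtain ⟨T, hT, rfl⟩ := mem_image.1 hS
        rw [mem_filter, hW, mem_filter, mem_powerset] at hT
        rw [hW, mem_filter, mem_powerset]
        exact ⟨(erase_subset _ _).trans hT.1.1, card_erase_le.trans hT.1.2⟩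
      · intro S hS T hT h
        have h1 := (mem_filter.1 hS).2
        have h2 := (mem_filter.1 hT).2
        have h3 : S.erase p = T.erase p := h
        rw [← insert_erase h1, ← insert_erase h2, h3]
    · refine (sum_le_sum_of_subset_of_nonneg (filter_subset (fun S => ¬ p ∈ S) W)
        fun S _ _ => hg0 S).trans' (le_of_eq ?_)
      refine sum_congr rfl fun S hS => ?_
      rw [erase_eq_of_notMem (mem_filter.1 hS).2]
  calc ∑ S ∈ W, (((Ioc A B).filter (fun t : ℤ => (p : ℤ) ^ 2 ∣ f.eval t ∧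
        ∀ q ∈ S, (q : ℤ) ∣ f.eval t)).card : ℝ)
      ≤ ∑ S ∈ W, K * g (S.erase p) := sum_le_sum hb
    _ = K * ∑ S ∈ W, g (S.erase p) := by rw [mul_sum]
    _ ≤ K * (2 * ∑ S ∈ W, g S) := mul_le_mul_of_nonneg_left hsum hK0
    _ = 2 * (K * EJ f P J) := by
        unfold EJ
        ring

/-- **the average over the values without square divisors** -/
theorem avg_good (f : ℤ[X]) {d z z' y : ℕ} (hf : Pg f d z') (hz : z' ≤ z) (hzy : z ≤ y)
    (hzd : 16 * d + 1 ≤ z) (A B : ℤ) {P : Finset ℕ} (hP : ∀ q ∈ P, q.Prime ∧ q ≤ y) (J : ℕ)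
    (hL : 16 * (d + 1) * (y : ℝ) ^ (J + 1) ≤ (B : ℝ) - A) :
    ((B : ℝ) - A) / 2 * EJ f P J ≤ ∑ t ∈ (Ioc A B).filter (fun t : ℤ =>
      ¬ ∃ p ∈ Ioc z y, p.Prime ∧ (p : ℤ) ^ 2 ∣ f.eval t), (2 : ℝ) ^ om f P t := by
  have hy : 1 ≤ y := by omega
  have hyr : (1 : ℝ) ≤ y := by exact_mod_cast hy
  have hz0 : 0 < z := by omega
  set L : ℝ := (B : ℝ) - A with hLd
  have hyJ : (1 : ℝ) ≤ (y : ℝ) ^ J := one_le_pow₀ hyr
  have hyJ1 : (y : ℝ) ^ (J + 1) = y * (y : ℝ) ^ J := by rw [pow_succ, mul_comm]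
  have hd0 : (0 : ℝ) ≤ d := Nat.cast_nonneg d
  have hL0 : 0 ≤ L := le_trans (by positivity) hL
  have hAB : A ≤ B := by
    have : (0 : ℝ) ≤ (B : ℝ) - A := hL0
    rw [sub_nonneg] at this
    exact_mod_cast this
  have hE := EJ_nonneg f P J
  have h1 := TJ_sum f A B hAB hP hy J
  set G := (Ioc A B).filter (fun t : ℤ =>
      ¬ ∃ p ∈ Ioc z y, p.Prime ∧ (p : ℤ) ^ 2 ∣ f.eval t) with hG
  set H := (Ioc A B).filter (fun t : ℤ =>
      ∃ p ∈ Ioc z y, p.Prime ∧ (p : ℤ) ^ 2 ∣ f.eval t) with hH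
  have hsplit : ∑ t ∈ Ioc A B, (TJ f P J t : ℝ) = ∑ t ∈ H, (TJ f P J t : ℝ) +
      ∑ t ∈ G, (TJ f P J t : ℝ) := (sum_filter_add_sum_filter_not _ _ _).symm
  have hHs : ∑ t ∈ H, (TJ f P J t : ℝ) ≤ 2 * d * EJ f P J * (L / z + (y : ℝ) ^ (J + 1)) := by
    calc ∑ t ∈ H, (TJ f P J t : ℝ) ≤ ∑ t ∈ Ioc A B, ∑ p ∈ (Ioc z y).filter Nat.Prime,
            (if (p : ℤ) ^ 2 ∣ f.eval t then (TJ f P J t : ℝ) else 0) := by
          rw [hH, sum_filter]
          refine sum_le_sum fun t _ => ?_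
          split_ifs with h
          · obtain ⟨p, hp, hpp, hpt⟩ := h
            refine le_trans (le_of_eq ?_) (single_le_sum (f := fun p : ℕ =>
              if (p : ℤ) ^ 2 ∣ f.eval t then (TJ f P J t : ℝ) else 0) (fun q _ => ?_)
              (mem_filter.2 ⟨hp, hpp⟩))
            · rw [if_pos hpt]
            · split_ifs
              · exact Nat.cast_nonneg _
              · exact le_rfl
          · refine sum_nonneg fun q _ => ?_
            split_ifs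
            · exact Nat.cast_nonneg _
            · exact le_rfl
      _ = ∑ p ∈ (Ioc z y).filter Nat.Prime, ∑ t ∈ (Ioc A B).filter (fun t : ℤ =>
            (p : ℤ) ^ 2 ∣ f.eval t), (TJ f P J t : ℝ) := by
          rw [sum_comm]
          refine sum_congr rfl fun p _ => ?_
          rw [sum_filter]
      _ ≤ ∑ p ∈ (Ioc z y).filter Nat.Prime,
            2 * (d * (L * ((p : ℝ) ^ 2)⁻¹ + (y : ℝ) ^ J) * EJ f P J) := by
          refine sum_le_sum fun p hp => ?_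
          rw [mem_filter, mem_Ioc] at hp
          exact TJ_sq f hf hz A B hAB hP hy J hp.2 hp.1.1
      _ ≤ ∑ p ∈ Ioc z y, 2 * (d * (L * ((p : ℝ) ^ 2)⁻¹ + (y : ℝ) ^ J) * EJ f P J) :=
          sum_le_sum_of_subset_of_nonneg (filter_subset _ _) fun p _ _ => by positivity
      _ = 2 * d * EJ f P J * (L * (∑ p ∈ Ioc z y, ((p : ℝ) ^ 2)⁻¹) +
            ((y - z : ℕ) : ℝ) * (y : ℝ) ^ J) := by
          rw [mul_sum, show ((y - z : ℕ) : ℝ) * (y : ℝ) ^ J = ∑ p ∈ Ioc z y, (y : ℝ) ^ J by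
            rw [sum_const, Nat.card_Ioc, nsmul_eq_mul], ← sum_add_distrib, mul_sum]
          refine sum_congr rfl fun p _ => ?_
          ring
      _ ≤ 2 * d * EJ f P J * (L / z + (y : ℝ) ^ (J + 1)) := by
          have h3 : ∑ p ∈ Ioc z y, ((p : ℝ) ^ 2)⁻¹ ≤ (z : ℝ)⁻¹ := by
            refine (sum_Ioc_inv_sq_le_sub hz0.ne' hzy).trans ?_
            have : (0 : ℝ) ≤ (y : ℝ)⁻¹ := by positivity
            linarith
          have h4 : ((y - z : ℕ) : ℝ) ≤ y := by exact_mod_cast Nat.sub_le _ _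
          rw [div_eq_mul_inv, hyJ1]
          gcongr
  have hGs : ∑ t ∈ G, (TJ f P J t : ℝ) ≤ ∑ t ∈ G, (2 : ℝ) ^ om f P t :=
    sum_le_sum fun t _ => by exact_mod_cast TJ_le f P J t
  -- the arithmetic
  have hz1 : 2 * (d : ℝ) * (L / z) ≤ L / 8 := by
    have hzr : (0 : ℝ) < z := by exact_mod_cast hz0
    have h5 : 16 * (d : ℝ) ≤ z := by exact_mod_cast (by omega : 16 * d ≤ z)
    rw [mul_div_assoc', div_le_iff₀ hzr]
    have h6 := mul_le_mul_of_nonneg_right h5 hL0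
    linarith
  have hz2 : 2 * (d : ℝ) * (y : ℝ) ^ (J + 1) ≤ L / 8 := by
    have h5 : 0 ≤ (y : ℝ) ^ (J + 1) := by positivity
    linarith
  have hz3 : (y : ℝ) ^ J ≤ L / 16 := by
    have h5 : (y : ℝ) ^ J ≤ (y : ℝ) ^ (J + 1) := pow_le_pow_right₀ hyr (by omega)
    have h6 : 0 ≤ (d : ℝ) * (y : ℝ) ^ (J + 1) := by positivity
    linarith
  have h7 : 2 * (d : ℝ) * EJ f P J * (L / z + (y : ℝ) ^ (J + 1)) ≤ L / 4 * EJ f P J := by
    have h8 : 2 * (d : ℝ) * (L / z + (y : ℝ) ^ (J + 1)) ≤ L / 4 := by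
      rw [mul_add]
      linarith
    have h9 := mul_le_mul_of_nonneg_right h8 hE
    linarith
  have h8 : (y : ℝ) ^ J * EJ f P J ≤ L / 16 * EJ f P J := mul_le_mul_of_nonneg_right hz3 hE
  have h9 : (L - (y : ℝ) ^ J) * EJ f P J = L * EJ f P J - (y : ℝ) ^ J * EJ f P J := by ring
  rw [h9] at h1
  have h10 : 0 ≤ L * EJ f P J := mul_nonneg hL0 hE
  linarith

end Pool.Agent.U409.HP
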