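import Pool.Agent.U409.HP.AvgC
import Pool.Agent.U409.LS.Mert

/-!
# The average of `2 ^ ω` over the values of a polynomial: the asymptotic lower bound
-/

set_option autoImplicit false

namespace Pool.Agent.U409.HP

open Polynomial Finset Filter
open Pool.Agent.H474R2.PG (rho)
open Pool.Agent.U214.PT (Pg)
open Pool.Agent.U409.LS (om SS PM)

lemma exp_le_one_add {x : ℝ} (hx : 0 ≤ x) : Real.exp (x - x ^ 2) ≤ 1 + x := by
  have h1 := Real.add_one_le_exp (-(x - x ^ 2))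
  have h2 : 0 < 1 - x + x ^ 2 := by nlinarith [sq_nonneg (x - 1), sq_nonneg x]
  have h3 : Real.exp (x - x ^ 2) * Real.exp (-(x - x ^ 2)) = 1 := by
    rw [← Real.exp_add, add_neg_cancel, Real.exp_zero]
  have h4 : 1 ≤ (1 + x) * (1 - x + x ^ 2) := by
    have : (1 + x) * (1 - x + x ^ 2) = 1 + x ^ 3 := by ring
    rw [this]
    have : 0 ≤ x ^ 3 := by positivity
    linarith
  have h5 : Real.exp (x - x ^ 2) * (1 - x + x ^ 2) ≤ 1 := by
    rw [← h3]
    apply mul_le_mul_of_nonneg_left _ (Real.exp_pos _).le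
    linarith
  have h6 : Real.exp (x - x ^ 2) * (1 - x + x ^ 2) ≤ (1 + x) * (1 - x + x ^ 2) := h5.trans h4
  exact le_of_mul_le_mul_right h6 h2

/-- the truncated sum is large -/
theorem EJ_ge (f : ℤ[X]) (P : Finset ℕ) (J : ℕ) (hJ : 3 * SS f P ≤ J) :
    Real.exp (SS f P - ∑ q ∈ P, ((rho f q : ℝ) / q) ^ 2) - 1 ≤ EJ f P J := by
  set x : ℕ → ℝ := fun q => (rho f q : ℝ) / q with hx
  have hx0 : ∀ q, 0 ≤ x q := fun q => by positivity
  have hSS : SS f P = ∑ q ∈ P, x q := rfl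
  have h1 : ∏ q ∈ P, (1 + x q) = ∑ S ∈ P.powerset, ∏ q ∈ S, x q := prod_one_add _
  have h2 : ∑ S ∈ P.powerset, ∏ q ∈ S, x q = EJ f P J +
      ∑ S ∈ P.powerset.filter (fun S : Finset ℕ => ¬ S.card ≤ J), ∏ q ∈ S, x q :=
    (sum_filter_add_sum_filter_not _ _ _).symm
  have h3 : ∑ S ∈ P.powerset.filter (fun S : Finset ℕ => ¬ S.card ≤ J), ∏ q ∈ S, x q ≤ 1 := by
    have hA : ∑ S ∈ P.powerset.filter (fun S : Finset ℕ => ¬ S.card ≤ J), ∏ q ∈ S, x q ≤
        ((3 : ℝ) ^ J)⁻¹ * ∏ q ∈ P, (1 + 3 * x q) := by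
      rw [prod_one_add, mul_sum]
      refine (sum_le_sum fun S hS => ?_).trans
        (sum_le_sum_of_subset_of_nonneg (filter_subset _ _) fun S _ _ => ?_)
      · rw [mem_filter, not_le] at hS
        rw [prod_mul_distrib, prod_const, ← mul_assoc]
        have hp : 0 ≤ ∏ q ∈ S, x q := prod_nonneg fun q _ => hx0 q
        have h5 : (1 : ℝ) ≤ ((3 : ℝ) ^ J)⁻¹ * 3 ^ S.card := by
          rw [inv_mul_eq_div, le_div_iff₀ (by positivity), one_mul]
          exact pow_le_pow_right₀ (by norm_num) hS.2.le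
        exact le_mul_of_one_le_left hp h5
      · exact mul_nonneg (by positivity) (prod_nonneg fun q _ => by
          have := hx0 q
          positivity)
    refine hA.trans ?_
    have hB : ∏ q ∈ P, (1 + 3 * x q) ≤ Real.exp (3 * SS f P) := by
      rw [hSS, mul_sum, Real.exp_sum]
      refine prod_le_prod (fun q _ => by have := hx0 q; positivity) fun q _ => ?_
      have := Real.add_one_le_exp (3 * x q)
      linarith
    have hC : Real.exp (3 * SS f P) ≤ 3 ^ J := by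
      calc Real.exp (3 * SS f P) ≤ Real.exp J := Real.exp_le_exp.2 hJ
        _ = Real.exp 1 ^ J := by rw [← Real.exp_nat_mul, mul_one]
        _ ≤ 3 ^ J := pow_le_pow_left₀ (Real.exp_pos _).le
            (Real.exp_one_lt_d9.le.trans (by norm_num)) J
    rw [inv_mul_eq_div, div_le_one (by positivity)]
    exact hB.trans hC
  have h4 : Real.exp (SS f P - ∑ q ∈ P, x q ^ 2) ≤ ∏ q ∈ P, (1 + x q) := by
    rw [hSS, ← sum_sub_distrib, Real.exp_sum]
    exact prod_le_prod (fun q _ => (Real.exp_pos _).le) fun q _ => exp_le_one_add (hx0 q)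
  have h5 : ∑ q ∈ P, ((rho f q : ℝ) / q) ^ 2 = ∑ q ∈ P, x q ^ 2 := rfl
  rw [h5]
  linarith

/-- Mertens' upper bound -/
lemma mert_up : ∃ C : ℝ, 0 ≤ C ∧ ∀ y : ℕ, 3 ≤ y →
    ∑ p ∈ (Icc 1 y).filter Nat.Prime, (1 : ℝ) / p ≤ Real.log (Real.log y) + C := by
  obtain ⟨C, hC, h⟩ := Pool.Agent.H474R2.GE.mertens_rho (X : ℤ[X]) irreducible_X (by
    rw [natDegree_X]; exact one_pos)
  refine ⟨C, hC, fun y hy => ?_⟩
  have h1 := (abs_le.1 (h y (by exact_mod_cast hy))).2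
  have h2 : ∑ p ∈ (Icc 1 y).filter Nat.Prime, (1 : ℝ) / p ≤
      Pool.Agent.H474R2.PG.Sg (rho (X : ℤ[X])) y := by
    unfold Pool.Agent.H474R2.PG.Sg Pool.Agent.H474R2.PG.PR
    rw [Nat.floor_natCast]
    refine sum_le_sum fun p hp => ?_
    rw [mem_filter] at hp
    apply div_le_div_of_nonneg_right _ (Nat.cast_nonneg _)
    have h3 : 1 ≤ rho (X : ℤ[X]) p := by
      unfold rho
      rw [Nat.one_le_iff_ne_zero, Ne, card_eq_zero, ← Ne, ← nonempty_iff_ne_empty]
      refine ⟨0, mem_filter.2 ⟨mem_range.2 hp.2.pos, ?_⟩⟩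
      rw [eval_X]
      exact dvd_zero _
    exact_mod_cast h3
  linarith

lemma PM_mem {n : ℤ} {y p : ℕ} (h : p ∈ PM n y) : p.Prime ∧ p ≤ y ∧ 1 ≤ p := by
  unfold PM at h
  rw [mem_filter, mem_Icc] at h
  exact ⟨h.2.1, h.1.2, h.1.1⟩

lemma PM_diff {n : ℤ} {z y p : ℕ} (h : p ∈ PM n y \ PM n z) : p.Prime ∧ z < p ∧ p ≤ y := by
  rw [Finset.mem_sdiff] at h
  obtain ⟨h1, h2, h3⟩ := PM_mem h.1
  refine ⟨h1, ?_, h2⟩
  by_contra hcon
  apply h.2
  have h4 := h.1
  unfold PM at h4 ⊢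
  rw [mem_filter, mem_Icc] at h4 ⊢
  exact ⟨⟨h4.1.1, not_lt.1 hcon⟩, h4.2⟩

/-- the upper bound for the sum of the densities -/
lemma SS_le {f : ℤ[X]} {d z' : ℕ} (hf : Pg f d z') {n : ℤ} {z y : ℕ} (hz : z' ≤ z) :
    SS f (PM n y \ PM n z) ≤ d * ∑ p ∈ (Icc 1 y).filter Nat.Prime, (1 : ℝ) / p := by
  unfold SS
  rw [mul_sum]
  have h1 : PM n y \ PM n z ⊆ (Icc 1 y).filter Nat.Prime := by
    intro p hp
    obtain ⟨h1, h2, h3⟩ := PM_diff hp
    rw [mem_filter, mem_Icc]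
    exact ⟨⟨h1.one_lt.le, h3⟩, h1⟩
  refine (sum_le_sum fun p hp => ?_).trans
    (sum_le_sum_of_subset_of_nonneg h1 fun p _ _ => by positivity)
  obtain ⟨h1, h2, h3⟩ := PM_diff hp
  have h4 : (rho f p : ℝ) ≤ d := by exact_mod_cast hf.rho p h1 (lt_of_le_of_lt hz h2)
  rw [mul_one_div]
  exact div_le_div_of_nonneg_right h4 (Nat.cast_nonneg _)

/-- the sum of the squares -/
lemma sq_sum_le {f : ℤ[X]} {d z' : ℕ} (hf : Pg f d z') {n : ℤ} {z y : ℕ} (hz : z' ≤ z)
    (hzy : z ≤ y) (hz0 : 0 < z) :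
    ∑ q ∈ PM n y \ PM n z, ((rho f q : ℝ) / q) ^ 2 ≤ (d : ℝ) ^ 2 := by
  have h1 : PM n y \ PM n z ⊆ Ioc z y := by
    intro p hp
    obtain ⟨h1, h2, h3⟩ := PM_diff hp
    exact mem_Ioc.2 ⟨h2, h3⟩
  calc ∑ q ∈ PM n y \ PM n z, ((rho f q : ℝ) / q) ^ 2
      ≤ ∑ q ∈ PM n y \ PM n z, (d : ℝ) ^ 2 * ((q : ℝ) ^ 2)⁻¹ := by
        refine sum_le_sum fun p hp => ?_
        obtain ⟨h1, h2, h3⟩ := PM_diff hp
        have h4 : (rho f p : ℝ) ≤ d := by exact_mod_cast hf.rho p h1 (lt_of_le_of_lt hz h2)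
        rw [div_pow, div_eq_mul_inv]
        apply mul_le_mul_of_nonneg_right _ (by positivity)
        exact pow_le_pow_left₀ (Nat.cast_nonneg _) h4 2
    _ ≤ ∑ q ∈ Ioc z y, (d : ℝ) ^ 2 * ((q : ℝ) ^ 2)⁻¹ :=
        sum_le_sum_of_subset_of_nonneg h1 fun p _ _ => by positivity
    _ = (d : ℝ) ^ 2 * ∑ q ∈ Ioc z y, ((q : ℝ) ^ 2)⁻¹ := by rw [mul_sum]
    _ ≤ (d : ℝ) ^ 2 * 1 := by
        apply mul_le_mul_of_nonneg_left _ (by positivity)
        refine (sum_Ioc_inv_sq_le_sub hz0.ne' hzy).trans ?_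
        have h5 : (0 : ℝ) ≤ (y : ℝ)⁻¹ := by positivity
        have h6 : (z : ℝ)⁻¹ ≤ 1 := by
          apply inv_le_one_of_one_le₀
          exact_mod_cast hz0
        linarith
    _ = _ := mul_one _

/-- **the average of `2 ^ ω`** -/
theorem avg_main {f : ℤ[X]} {d z' : ℕ} (hf : Pg f d z') {n : ℤ} {κ : ℝ} (hκ : 0 < κ)
    (hM : ∃ C : ℝ, ∀ y : ℕ, 3 ≤ y → κ * Real.log (Real.log y) - C ≤ SS f (PM n y))
    {z : ℕ} (hz : z' ≤ z) (hzd : 16 * d + 1 ≤ z) {ε : ℝ} (hε : 0 < ε) :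
    ∀ᶠ X : ℕ in atTop, ∃ y : ℕ, z ≤ y ∧ (X : ℝ) * (Real.log X) ^ (κ - ε) ≤
      ∑ t ∈ (Ioc (-(X : ℤ) - 1) X).filter (fun t : ℤ =>
        ¬ ∃ p ∈ Ioc z y, p.Prime ∧ (p : ℤ) ^ 2 ∣ f.eval t), (2 : ℝ) ^ om f (PM n y \ PM n z) t := by
  obtain ⟨CM, hCM⟩ := hM
  obtain ⟨CU, hCU0, hCU⟩ := mert_up
  set C1 : ℝ := CM + SS f (PM n z) with hC1
  set c1 : ℝ := 3 * d * (1 + CU) + 5 with hc1
  have hc10 : 0 < c1 := by positivity
  have hc11 : 1 ≤ c1 := by
    have : 0 ≤ 3 * (d : ℝ) * (1 + CU) := by positivity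
    linarith
  set κ' : ℝ := max (κ - ε) 0 with hκ'
  have hκ'0 : 0 ≤ κ' := le_max_right _ _
  have hκκ' : κ' < κ := max_lt (by linarith) hκ
  set B0 : ℝ := 2 * z + 16 * (d + 1) + 8 with hB0
  have hB00 : 0 < B0 := by positivity
  have hlam : Tendsto (fun X : ℕ => Real.log (Real.log X)) atTop atTop :=
    Real.tendsto_log_atTop.comp (Real.tendsto_log_atTop.comp tendsto_natCast_atTop_atTop)
  have ev1 : ∀ᶠ l : ℝ in atTop, 1 ≤ l ∧ c1 * B0 ≤ Real.exp l / l := by
    refine (eventually_ge_atTop 1).and ?_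
    have h1 := Real.tendsto_exp_div_pow_atTop 1
    simp only [pow_one] at h1
    exact h1.eventually_ge_atTop _
  have ev2 : ∀ᶠ l : ℝ in atTop, κ * Real.log (2 * c1 * l) + C1 + (d : ℝ) ^ 2 + 1 ≤ (κ - κ') * l := by
    have h1 := Real.isLittleO_log_id_atTop.def (show 0 < (κ - κ') / (2 * κ) by
      apply div_pos (by linarith) (by positivity))
    filter_upwards [h1, eventually_ge_atTop 1, eventually_ge_atTop
      (2 * (κ * Real.log (2 * c1) + C1 + (d : ℝ) ^ 2 + 1) / (κ - κ'))] with l h2 h3 h4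
    have h5 : Real.log l ≤ (κ - κ') / (2 * κ) * l := by
      have h6 := le_trans (le_abs_self (Real.log l)) h2
      rwa [id, Real.norm_eq_abs, abs_of_nonneg (by linarith)] at h6
    rw [Real.log_mul (by positivity) (by positivity)]
    rw [div_le_iff₀ (by linarith)] at h4
    have h6 : κ * ((κ - κ') / (2 * κ) * l) = (κ - κ') / 2 * l := by
      field_simp
    have h7 := mul_le_mul_of_nonneg_left h5 hκ.le
    rw [h6] at h7
    linarith
  filter_upwards [hlam.eventually ev1, hlam.eventually ev2, eventually_ge_atTop 3]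
    with X e1 e2 e3
  obtain ⟨lam, hlamd⟩ : ∃ l, l = Real.log (Real.log X) := ⟨_, rfl⟩
  rw [← hlamd] at e1 e2
  obtain ⟨Lam, hLam⟩ : ∃ L, L = Real.log X := ⟨_, rfl⟩
  rw [← hLam] at hlamd ⊢
  have hXr : (3 : ℝ) ≤ X := by exact_mod_cast e3
  have hX0 : (0 : ℝ) < X := by linarith
  have hLam0 : 0 < Lam := by
    rw [hLam]
    exact Real.log_pos (by linarith)
  have hLamE : Real.exp lam = Lam := by rw [hlamd, Real.exp_log hLam0]
  have hXE : Real.exp Lam = X := by rw [hLam, Real.exp_log hX0]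
  have hl1 := e1.1
  -- `J`
  obtain ⟨J, hJ⟩ : ∃ J : ℕ, J = ⌈3 * (d : ℝ) * (lam + CU)⌉₊ := ⟨_, rfl⟩
  have hJ1 : 3 * (d : ℝ) * (lam + CU) ≤ J := by
    rw [hJ]
    exact Nat.le_ceil _
  have hJ2 : (J : ℝ) + 3 ≤ c1 * lam := by
    have h1 : (J : ℝ) < 3 * (d : ℝ) * (lam + CU) + 1 := by
      rw [hJ]
      exact Nat.ceil_lt_add_one (by positivity)
    have h2 : 3 * (d : ℝ) * (lam + CU) ≤ 3 * (d : ℝ) * (lam + CU * lam) := by
      apply mul_le_mul_of_nonneg_left _ (by positivity)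
      have : CU ≤ CU * lam := le_mul_of_one_le_right hCU0 hl1
      linarith
    have h3 : c1 * lam = 3 * (d : ℝ) * (lam + CU * lam) + 5 * lam := by
      rw [hc1]
      ring
    rw [h3]
    linarith
  have hJ3 : (0 : ℝ) < (J : ℝ) + 3 := by positivity
  -- `y`
  obtain ⟨w, hw⟩ : ∃ w, w = Lam / ((J : ℝ) + 3) := ⟨_, rfl⟩
  have hwB : B0 ≤ w := by
    have h1 := e1.2
    rw [le_div_iff₀ (by linarith), hLamE] at h1
    rw [hw, le_div_iff₀ hJ3]
    calc B0 * ((J : ℝ) + 3) ≤ B0 * (c1 * lam) := mul_le_mul_of_nonneg_left hJ2 hB00.le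
      _ = c1 * B0 * lam := by ring
      _ ≤ Lam := h1
  obtain ⟨y, hy⟩ : ∃ y : ℕ, y = ⌊Real.exp w⌋₊ := ⟨_, rfl⟩
  have hye : (y : ℝ) ≤ Real.exp w := by
    rw [hy]
    exact Nat.floor_le (Real.exp_pos _).le
  have hye2 : Real.exp w < y + 1 := by
    rw [hy]
    exact Nat.lt_floor_add_one _
  have hwe := Real.add_one_le_exp w
  have hyz : (z : ℝ) + 3 ≤ y := by
    have : (0 : ℝ) ≤ z := Nat.cast_nonneg _
    have : (0 : ℝ) ≤ d := Nat.cast_nonneg _
    linarith
  have hyzn : z + 3 ≤ y := by exact_mod_cast hyz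
  have hy1 : (1 : ℝ) ≤ y := by
    have : (0 : ℝ) ≤ z := Nat.cast_nonneg _
    linarith
  have hylog : Lam / (2 * (c1 * lam)) ≤ Real.log y := by
    have h1 : Real.exp w / 2 ≤ y := by linarith
    have h2 : Real.log (Real.exp w / 2) ≤ Real.log y := Real.log_le_log (by positivity) h1
    rw [Real.log_div (Real.exp_pos _).ne' (by norm_num), Real.log_exp] at h2
    have h3 : Real.log 2 ≤ 1 := by
      have := Real.log_two_lt_d9
      linarith
    have h4 : Lam / (2 * (c1 * lam)) ≤ w / 2 := by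
      rw [hw, div_div, mul_comm 2]
      apply div_le_div_of_nonneg_left hLam0.le (by positivity)
      linarith
    have h5 : (8 : ℝ) ≤ w := by
      refine le_trans ?_ hwB
      have : (0 : ℝ) ≤ z := Nat.cast_nonneg _
      have : (0 : ℝ) ≤ d := Nat.cast_nonneg _
      rw [hB0]
      linarith
    linarith
  have hyloglog : lam - Real.log (2 * c1 * lam) ≤ Real.log (Real.log y) := by
    have h1 := Real.log_le_log (by positivity) hylog
    rw [Real.log_div hLam0.ne' (by positivity), ← hlamd] at h1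
    rwa [mul_assoc]
  have hylogX : Real.log (Real.log y) ≤ lam := by
    rw [hlamd]
    apply Real.log_le_log
    · apply Real.log_pos
      have : (0 : ℝ) ≤ z := Nat.cast_nonneg _
      linarith
    · rw [hLam]
      apply Real.log_le_log (by linarith)
      refine hye.trans ?_
      rw [← hXE, Real.exp_le_exp, hw]
      apply div_le_self hLam0.le
      linarith [Nat.cast_nonneg (α := ℝ) J]
  refine ⟨y, by omega, ?_⟩
  set P := PM n y \ PM n z with hP
  have hPy : ∀ q ∈ P, q.Prime ∧ q ≤ y := fun q hq => ⟨(PM_diff hq).1, (PM_diff hq).2.2⟩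
  have hLen : (((X : ℤ) : ℝ) - ((-(X : ℤ) - 1 : ℤ) : ℝ)) = 2 * X + 1 := by
    push_cast
    ring
  have hmain := avg_good f hf hz (by omega : z ≤ y) hzd (-(X : ℤ) - 1) X hPy J (by
    rw [hLen]
    have h1 : (y : ℝ) ^ (J + 1) ≤ Real.exp (w * (J + 1)) := by
      calc (y : ℝ) ^ (J + 1) ≤ (Real.exp w) ^ (J + 1) := pow_le_pow_left₀ (by linarith) hye _
        _ = Real.exp (w * (J + 1)) := by
            rw [← Real.exp_nat_mul]
            congr 1
            push_cast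
            ring
    have h2 : Real.exp (w * (J + 1)) = X * Real.exp (-(2 * w)) := by
      rw [← hXE, ← Real.exp_add]
      congr 1
      rw [hw]
      field_simp
      ring
    have h3 : 16 * ((d : ℝ) + 1) * Real.exp (-(2 * w)) ≤ 1 := by
      rw [Real.exp_neg, ← div_eq_mul_inv, div_le_one (Real.exp_pos _)]
      have h4 := Real.add_one_le_exp (2 * w)
      have : (0 : ℝ) ≤ z := Nat.cast_nonneg _
      linarith
    calc 16 * ((d : ℝ) + 1) * (y : ℝ) ^ (J + 1) ≤ 16 * ((d : ℝ) + 1) * (X * Real.exp (-(2 * w))) := by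
          apply mul_le_mul_of_nonneg_left _ (by positivity)
          rw [← h2]
          exact h1
      _ = X * (16 * ((d : ℝ) + 1) * Real.exp (-(2 * w))) := by ring
      _ ≤ X * 1 := mul_le_mul_of_nonneg_left h3 hX0.le
      _ ≤ 2 * X + 1 := by linarith)
  refine le_trans ?_ hmain
  rw [hLen]
  -- the densities
  have hSSu : 3 * SS f P ≤ J := by
    have h1 := SS_le (n := n) (y := y) hf hz
    have h2 := hCU y (by omega)
    have h3 : SS f P ≤ d * (lam + CU) := by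
      refine h1.trans ?_
      apply mul_le_mul_of_nonneg_left _ (Nat.cast_nonneg _)
      linarith
    linarith
  have hE := EJ_ge f P J hSSu
  have hsq := sq_sum_le (n := n) hf hz (by omega : z ≤ y) (by omega : 0 < z)
  rw [← hP] at hsq
  have hSSl : κ * (lam - Real.log (2 * c1 * lam)) - C1 ≤ SS f P := by
    have h1 := hCM y (by omega)
    have h2 : SS f (PM n y) ≤ SS f P + SS f (PM n z) := by
      unfold SS
      have h3 : ∑ p ∈ PM n y, (rho f p : ℝ) / p ≤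
          ∑ p ∈ (PM n y \ PM n z) ∪ PM n z, (rho f p : ℝ) / p := by
        refine sum_le_sum_of_subset_of_nonneg ?_ fun p _ _ => by positivity
        rw [sdiff_union_self_eq_union]
        exact subset_union_left
      rw [sum_union sdiff_disjoint] at h3
      exact h3
    have h3 := mul_le_mul_of_nonneg_left hyloglog hκ.le
    rw [hC1]
    linarith
  have hexp : Lam ^ (κ - ε) ≤ EJ f P J := by
    refine le_trans ?_ hE
    have h1 : Lam ^ (κ - ε) = Real.exp ((κ - ε) * lam) := by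
      rw [Real.rpow_def_of_pos hLam0, ← hlamd, mul_comm]
    have h2 : (κ - ε) * lam ≤ κ' * lam := mul_le_mul_of_nonneg_right (le_max_left _ _) (by linarith)
    have h3 : κ' * lam + 1 ≤ SS f P - ∑ q ∈ P, ((rho f q : ℝ) / q) ^ 2 := by
      have h4 : κ * (lam - Real.log (2 * c1 * lam)) = κ * lam - κ * Real.log (2 * c1 * lam) := by ring
      rw [h4] at hSSl
      have h5 : (κ - κ') * lam = κ * lam - κ' * lam := by ring
      rw [h5] at e2
      linarith
    have h4 := Real.exp_le_exp.2 h3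
    rw [Real.exp_add] at h4
    have h5 : 1 ≤ Real.exp (κ' * lam) := Real.one_le_exp (mul_nonneg hκ'0 (by linarith))
    have h6 : (2 : ℝ) ≤ Real.exp 1 := by
      have := Real.add_one_le_exp (1 : ℝ)
      linarith
    have h7 : Real.exp (κ' * lam) * 2 ≤ Real.exp (κ' * lam) * Real.exp 1 :=
      mul_le_mul_of_nonneg_left h6 (by linarith)
    have h8 := Real.exp_le_exp.2 h2
    rw [h1]
    linarith
  have hE0 : 0 ≤ EJ f P J := EJ_nonneg f P J
  calc (X : ℝ) * Lam ^ (κ - ε) ≤ X * EJ f P J := mul_le_mul_of_nonneg_left hexp hX0.le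
    _ ≤ (2 * X + 1) / 2 * EJ f P J := mul_le_mul_of_nonneg_right (by linarith) hE0

end Pool.Agent.U409.HP
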