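import Pool.Agent.W313.BMX.Final

/-!
# The curves `c y² = (x² - r k w²) (x² - s k w²)`
-/

set_option autoImplicit false

namespace Pool.Agent.U409.HP

open Polynomial Finset
open Pool.Agent.W313.BMX (Point AdelicPoint Orthogonal homog Admissible value values Fam)

/-- the polynomials `X² - m` and `X² - n`; `Point (ff m n) c F` is the set of the points over `F`
of the curve `c y² = (x² - m w²) (x² - n w²)` of genus one -/
noncomputable def ff (m n : ℤ) : Fin 2 → ℤ[X] := ![X ^ 2 - C m, X ^ 2 - C n]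

/-- the squarefree integers `c` with `d = c k` for which the curve
`c y² = (x² - r k w²) (x² - s k w²)` has a real point and a point over `ℚ_p` for every `p` -/
def Els (r s d : ℤ) : Set ℤ :=
  {c | Squarefree c ∧ ∃ k : ℤ, d = c * k ∧ Nonempty (AdelicPoint (ff (r * k) (s * k)) c)}

/-- those for which the curve has a rational point -/
def Rat (r s d : ℤ) : Set ℤ :=
  {c | Squarefree c ∧ ∃ k : ℤ, d = c * k ∧ Nonempty (Point (ff (r * k) (s * k)) c ℚ)}

/-- those for which the curve has an adelic point that is orthogonal to the classes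
`(x² - r k w², e)` and `(x² - s k w², e)` of the Brauer group, for all nonzero integers `e` -/
def Orth (r s d : ℤ) : Set ℤ :=
  {c | Squarefree c ∧ ∃ k : ℤ, d = c * k ∧
    ∃ P : AdelicPoint (ff (r * k) (s * k)) c, Orthogonal P}

lemma natDegree_X2 (m : ℤ) : (X ^ 2 - C m : ℤ[X]).natDegree = 2 := natDegree_X_pow_sub_C

lemma homog_X2 (m : ℤ) {R : Type} [CommRing R] (x w : R) :
    homog (X ^ 2 - C m) x w = x ^ 2 - m * w ^ 2 := by
  unfold homog
  rw [natDegree_X2]
  rw [sum_range_succ, sum_range_succ, sum_range_succ, sum_range_zero]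
  simp only [coeff_sub, coeff_X_pow, coeff_C]
  norm_num
  ring

lemma homog_ff0 (m n : ℤ) {R : Type} [CommRing R] (x w : R) :
    homog (ff m n 0) x w = x ^ 2 - m * w ^ 2 := homog_X2 m x w

lemma homog_ff1 (m n : ℤ) {R : Type} [CommRing R] (x w : R) :
    homog (ff m n 1) x w = x ^ 2 - n * w ^ 2 := homog_X2 n x w

lemma prod_ff (m n : ℤ) {R : Type} [CommRing R] (x w : R) :
    ∏ k, homog (ff m n k) x w = (x ^ 2 - m * w ^ 2) * (x ^ 2 - n * w ^ 2) := by
  rw [Fin.prod_univ_two, homog_ff0, homog_ff1]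

lemma irr_X2 {m : ℤ} (hm : ¬ IsSquare m) :
    Irreducible ((X ^ 2 - C m : ℤ[X]).map (Int.castRingHom ℚ)) := by
  rw [Polynomial.map_sub, Polynomial.map_pow, map_X, map_C]
  apply X_pow_sub_C_irreducible_of_prime Nat.prime_two
  intro b hb
  apply hm
  rw [← Rat.isSquare_intCast_iff]
  refine ⟨b, ?_⟩
  rw [← pow_two, hb]
  simp

lemma adm {m n : ℤ} (hm : ¬ IsSquare m) (hn : ¬ IsSquare n) (hmn : m ≠ n) :
    Admissible (ff m n) := by
  refine ⟨?_, ?_, ?_⟩
  · intro k
    fin_cases k
    · exact irr_X2 hm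
    · exact irr_X2 hn
  · intro k
    fin_cases k
    · show Even (X ^ 2 - C m : ℤ[X]).natDegree
      rw [natDegree_X2]
      exact even_two
    · show Even (X ^ 2 - C n : ℤ[X]).natDegree
      rw [natDegree_X2]
      exact even_two
  · have key : ∀ m n : ℤ, m ≠ n → ¬ Associated ((X ^ 2 - C m : ℤ[X]).map (Int.castRingHom ℚ))
        ((X ^ 2 - C n : ℤ[X]).map (Int.castRingHom ℚ)) := by
      intro m n hmn h
      have h1 : ((X ^ 2 - C m : ℤ[X]).map (Int.castRingHom ℚ)).Monic :=
        (monic_X_pow_sub_C m two_ne_zero).map _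
      have h2 : ((X ^ 2 - C n : ℤ[X]).map (Int.castRingHom ℚ)).Monic :=
        (monic_X_pow_sub_C n two_ne_zero).map _
      have h3 := eq_of_monic_of_associated h1 h2 h
      have h4 := congrArg (fun g : ℚ[X] => g.coeff 0) h3
      simp only [Polynomial.map_sub, Polynomial.map_pow, map_X, map_C, coeff_sub, coeff_X_pow,
        coeff_C] at h4
      norm_num at h4
      exact hmn h4
    intro k l hkl
    fin_cases k <;> fin_cases l
    · exact absurd rfl hkl
    · exact key m n hmn
    · exact key n m hmn.symm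
    · exact absurd rfl hkl

end Pool.Agent.U409.HP
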