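import Pool.Agent.U409.HP.Defs
import Pool.Agent.U409.LS.Ker

/-!
# Many everywhere locally soluble curves
-/

set_option autoImplicit false

namespace Pool.Agent.U409.HP

open Polynomial Finset
open Pool.Agent.W313.BMX (Point AdelicPoint Orthogonal homog)
open Pool.Agent.U409.LS (Sol Hyp Gm Gp lu ker)

/-- from an affine point to a point -/
lemma point_of_sol {F : Type} [Field F] [CharZero F] {r s c k : ℤ} (hc : c ≠ 0)
    (h : Sol F r s c k) : Nonempty (Point (ff (r * k) (s * k)) c F) := by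
  have hcF : (c : F) ≠ 0 := by exact_mod_cast hc
  rcases h with ⟨g, hg⟩ | ⟨u, N, h⟩
  · have hg0 : g ≠ 0 := by
      rintro rfl
      rw [mul_zero] at hg
      exact hcF hg
    refine ⟨⟨1, 0, 1 / g, Or.inl one_ne_zero, ?_⟩⟩
    rw [prod_ff, hg]
    field_simp
    ring
  · refine ⟨⟨u, 1, N / c, Or.inr one_ne_zero, ?_⟩⟩
    rw [prod_ff]
    push_cast
    field_simp
    linear_combination h

/-- scaling -/
lemma point_scale {F : Type} [Field F] [CharZero F] {r s c k : ℤ} (b : ℤ) (hb : b ≠ 0)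
    (h : Nonempty (Point (ff (r * k) (s * k)) c F)) :
    Nonempty (Point (ff (r * (b ^ 2 * k)) (s * (b ^ 2 * k))) c F) := by
  obtain ⟨⟨x, w, y, hne, heq⟩⟩ := h
  have hbF : (b : F) ≠ 0 := by exact_mod_cast hb
  refine ⟨⟨b * x, w, b ^ 2 * y, ?_, ?_⟩⟩
  · rcases hne with h | h
    · exact Or.inl (mul_ne_zero hbF h)
    · exact Or.inr h
  · rw [prod_ff] at heq ⊢
    push_cast at heq ⊢
    linear_combination (b : F) ^ 4 * heq

lemma adelic_of {r s c k : ℤ} (h1 : Nonempty (Point (ff (r * k) (s * k)) c ℝ))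
    (h2 : ∀ p : Nat.Primes, Nonempty (Point (ff (r * k) (s * k)) c ℚ_[(p : ℕ)])) :
    Nonempty (AdelicPoint (ff (r * k) (s * k)) c) :=
  ⟨⟨h1.some, fun p => (h2 p).some⟩⟩

lemma els_finite {r s d : ℤ} (hd : d ≠ 0) : (Els r s d).Finite := by
  refine (Set.finite_Icc (-(d.natAbs : ℤ)) d.natAbs).subset ?_
  rintro c ⟨-, k, hk, -⟩
  have h1 : c ∣ d := ⟨k, hk⟩
  have h2 : c.natAbs ≤ d.natAbs := Nat.le_of_dvd (Int.natAbs_pos.2 hd) (Int.natAbs_dvd_natAbs.2 h1)
  rw [Set.mem_Icc]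
  omega

/-- the number of the primes `p > z` with odd exponent in `d` for which `n` is not a residue -/
noncomputable def oz (z : ℕ) (n d : ℤ) : ℕ := by
  classical exact
  (d.natAbs.primeFactors.filter (fun p => z < p ∧ Odd (d.natAbs.factorization p) ∧
    ¬ lu p n = 1)).card

open scoped Classical in
/-- the lower bound for the number of the everywhere locally soluble curves -/
theorem low {r s d : ℤ} (hr : r ≠ 0) (hs : s ≠ 0) (hrs : r ≠ s) (hd : d ≠ 0) {z : ℕ}
    (hz : ∀ p : ℕ, p.Prime → z < p → p ≠ 2 ∧ ¬ (p : ℤ) ∣ r ∧ ¬ (p : ℤ) ∣ s ∧ ¬ (p : ℤ) ∣ r - s) :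
    2 ^ oz z (r * s) d ≤ 4 * 2 ^ z * (Els r s d).ncard := by
  obtain ⟨a, b, hab, hsq⟩ := Nat.sq_mul_squarefree d.natAbs
  have ha0 : a ≠ 0 := hsq.ne_zero
  have hb0 : b ≠ 0 := by
    rintro rfl
    rw [zero_pow two_ne_zero, zero_mul] at hab
    exact hd (Int.natAbs_eq_zero.1 hab.symm)
  obtain ⟨d', hd'⟩ : ∃ d' : ℤ, d' = d.sign * a := ⟨_, rfl⟩
  have hd'a : d'.natAbs = a := by
    rw [hd', Int.natAbs_mul, Int.natAbs_sign_of_ne_zero hd, one_mul, Int.natAbs_natCast]
  have hdd : d = (b : ℤ) ^ 2 * d' := by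
    have h2 := Int.sign_mul_natAbs d
    rw [← hab] at h2
    push_cast at h2
    rw [hd']
    linear_combination -h2
  have hd'0 : d' ≠ 0 := by
    intro h
    rw [h] at hd'a
    exact ha0 hd'a.symm
  set G : Finset ℕ := a.primeFactors.filter (fun p => z < p) with hG
  set Bd : Finset ℕ := ((r * s * (r - s) * d').natAbs.primeFactors.filter
    (fun p => p ≠ 2 ∧ p ∉ G)) with hBd
  have hne : r * s * (r - s) * d' ≠ 0 :=
    mul_ne_zero (mul_ne_zero (mul_ne_zero hr hs) (sub_ne_zero.2 hrs)) hd'0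
  have hGm : ∀ p ∈ G, p.Prime ∧ z < p ∧ p ∣ a := by
    intro p hp
    rw [hG, mem_filter, Nat.mem_primeFactors] at hp
    exact ⟨hp.1.1, hp.2, hp.1.2.1⟩
  have hyp : Hyp r s d' G Bd := by
    refine ⟨hr, hs, hrs, hd'0, fun p hp => (hGm p hp).1,
      fun p hp => (hz p (hGm p hp).1 (hGm p hp).2.1).1,
      fun p hp => (hz p (hGm p hp).1 (hGm p hp).2.1).2,
      fun p hp => ⟨?_, ?_⟩, fun p hp => ?_, fun p hp hp2 hpd => ?_⟩
    · rw [Int.natCast_dvd, hd'a]
      exact (hGm p hp).2.2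
    · intro h
      have h1 : p * p ∣ a := by
        have h2 : ((p * p : ℕ) : ℤ) ∣ d' := by
          push_cast
          rw [← pow_two]
          exact h
        rw [Int.natCast_dvd, hd'a] at h2
        exact h2
      exact (hGm p hp).1.one_lt.ne' (Nat.isUnit_iff.1 (hsq p h1))
    · rw [hBd, mem_filter] at hp
      exact ⟨Nat.prime_of_mem_primeFactors hp.1, hp.2⟩
    · by_cases hpG : p ∈ G
      · exact Or.inl hpG
      · right
        rw [hBd, mem_filter, Nat.mem_primeFactors]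
        exact ⟨⟨hp, Int.natCast_dvd.1 hpd, Int.natAbs_ne_zero.2 hne⟩, hp2, hpG⟩
  obtain ⟨K, hK1, hK2, hK3⟩ := ker hyp
  have hBc : Bd.card ≤ z := by
    have h2 : Bd ⊆ Icc 1 z := by
      intro p hp
      rw [hBd, mem_filter, Nat.mem_primeFactors] at hp
      obtain ⟨⟨hp1, hp2, hp3⟩, hp4, hp5⟩ := hp
      rw [mem_Icc]
      refine ⟨hp1.one_lt.le, ?_⟩
      by_contra hcon
      have h := not_le.1 hcon
      obtain ⟨_, h3, h4, h5⟩ := hz p hp1 h
      have hpi : Prime (p : ℤ) := Nat.prime_iff_prime_int.1 hp1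
      have h6 : (p : ℤ) ∣ r * s * (r - s) * d' := Int.natCast_dvd.2 hp2
      rcases hpi.dvd_or_dvd h6 with h7 | h7
      · rcases hpi.dvd_or_dvd h7 with h8 | h8
        · rcases hpi.dvd_or_dvd h8 with h9 | h9
          · exact h3 h9
          · exact h4 h9
        · exact h5 h8
      · apply hp5
        rw [hG, mem_filter, Nat.mem_primeFactors]
        rw [Int.natCast_dvd, hd'a] at h7
        exact ⟨⟨hp1, h7, ha0⟩, h⟩
    refine (card_le_card h2).trans ?_
    rw [Nat.card_Icc, Nat.add_sub_cancel]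
  have hom : oz z (r * s) d ≤ (Gm r s G).card := by
    unfold oz
    refine card_le_card fun p hp => ?_
    rw [mem_filter, Nat.mem_primeFactors] at hp
    obtain ⟨⟨hp1, hp2, hp3⟩, hp4, hp5, hp6⟩ := hp
    unfold Gm
    rw [mem_filter, hG, mem_filter, Nat.mem_primeFactors]
    refine ⟨⟨⟨hp1, ?_, ha0⟩, hp4⟩, hp6⟩
    by_contra hcon
    have h1 : a.factorization p = 0 := Nat.factorization_eq_zero_of_not_dvd hcon
    rw [← hab, Nat.factorization_mul (pow_ne_zero 2 hb0) ha0, Nat.factorization_pow,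
      Finsupp.add_apply, Finsupp.smul_apply, h1, add_zero, smul_eq_mul] at hp5
    exact (Nat.not_odd_iff_even.2 (even_two_mul _)) hp5
  have hKE : (K : Set ℤ) ⊆ Els r s d := by
    intro c hc
    obtain ⟨k, hk, hp, hR⟩ := hK2 c hc
    have hc0 := (hK1 c hc).ne_zero
    have hbz : (b : ℤ) ≠ 0 := by exact_mod_cast hb0
    refine ⟨hK1 c hc, (b : ℤ) ^ 2 * k, ?_, ?_⟩
    · rw [hdd, hk]
      ring
    · exact adelic_of (point_scale b hbz (point_of_sol hc0 hR))
        (fun p => by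
          have : Fact (p : ℕ).Prime := ⟨p.2⟩
          exact point_scale b hbz (point_of_sol hc0 (hp p)))
  have h1 : K.card ≤ (Els r s d).ncard := by
    rw [← Set.ncard_coe_finset]
    exact Set.ncard_le_ncard hKE (els_finite hd)
  calc 2 ^ oz z (r * s) d ≤ 2 ^ (Gm r s G).card := Nat.pow_le_pow_right (by norm_num) hom
    _ ≤ 4 * 2 ^ Bd.card * K.card := hK3
    _ ≤ 4 * 2 ^ z * (Els r s d).ncard := by
        gcongr
        norm_num

/-- the trivial factorisation -/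
lemma one_mem_rat {r s d : ℤ} : (1 : ℤ) ∈ Rat r s d := by
  refine ⟨squarefree_one, d, (one_mul d).symm, ⟨⟨1, 0, 1, Or.inl one_ne_zero, ?_⟩⟩⟩
  rw [prod_ff]
  norm_num

end Pool.Agent.U409.HP
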