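import Pool.Agent.U409.HP.AvgE
import Pool.Agent.U409.HP.Low
import Pool.Agent.U409.LS.Asym

/-!
# The normal order of the number of the everywhere locally soluble curves
-/

set_option autoImplicit false

namespace Pool.Agent.U409.HP

open Polynomial Finset Filter
open Pool.Agent.H474R2.PG (rho)
open Pool.Agent.U214.PT (Pg)
open Pool.Agent.U409.LS (om SS PM RR rt8 rt8_le lt_rt8 rt8_tendsto succ_le_sq cheb sq_count lu)

open scoped Classical in
/-- the exceptional values -/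
noncomputable def Ex (f : ℤ[X]) (n : ℤ) (z : ℕ) (A c : ℝ) (X : ℕ) : Finset ℤ :=
  (Icc (-(X : ℤ)) X).filter (fun t => (∃ p ∈ Ioc z (rt8 X), p.Prime ∧ (p : ℤ) ^ 2 ∣ f.eval t) ∨
    (2 : ℝ) ^ om f (PM n (rt8 X) \ PM n z) t < A * (Real.log X) ^ c)

/-- **the normal order** -/
theorem norm_main {f : ℤ[X]} {d z' : ℕ} (hf : Pg f d z') {n : ℤ} {κ : ℝ} (hκ : 0 < κ)
    (hM : ∃ C : ℝ, ∀ y : ℕ, 3 ≤ y → κ * Real.log (Real.log y) - C ≤ SS f (PM n y))
    {z : ℕ} (hz : z' ≤ z) (hz0 : 0 < z) {ε : ℝ} (hε : 0 < ε) {δ : ℝ} (hδ : 0 < δ)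
    (hzr : (12 * d / δ : ℝ) ≤ z) {A : ℝ} (hA0 : 0 < A) :
    ∀ᶠ X : ℕ in atTop, ((Ex f n z A (κ * Real.log 2 - ε) X).card : ℝ) ≤ δ * X := by
  classical
  obtain ⟨CM, hCM⟩ := hM
  have hl2 : 0 < Real.log 2 := Real.log_pos (by norm_num)
  set η : ℝ := ε / (2 * (κ * Real.log 2 + ε)) with hη
  have hη0 : 0 < η := by positivity
  have hη1 : η < 1 := by
    rw [hη, div_lt_one (by positivity)]
    have := mul_pos hκ hl2
    linarith
  set a1 : ℝ := (1 - η) * κ * Real.log 2 with ha1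
  have ha10 : 0 < a1 := mul_pos (mul_pos (by linarith) hκ) hl2
  set c : ℝ := κ * Real.log 2 - ε with hc
  have hca : c < a1 := by
    have h1 : η * (κ * Real.log 2) < ε := by
      rw [hη, div_mul_eq_mul_div, div_lt_iff₀ (by positivity)]
      have := mul_pos hκ hl2
      exact mul_lt_mul_of_pos_left (by linarith) hε
    rw [hc, ha1]
    linarith
  set c' : ℝ := max c 0 with hc'
  have hc'0 : 0 ≤ c' := le_max_right _ _
  have hca' : c' < a1 := max_lt hca ha10
  set C1 : ℝ := CM + SS f (PM n z) with hC1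
  set S : ℕ → ℝ := fun y => SS f (PM n y \ PM n z) with hS
  have hSl : ∀ y : ℕ, 3 ≤ y → κ * Real.log (Real.log y) - C1 ≤ S y := by
    intro y hy
    have h1 := hCM y hy
    have h2 : SS f (PM n y) ≤ S y + SS f (PM n z) := by
      rw [hS]
      unfold SS
      have h3 : ∑ p ∈ PM n y, (rho f p : ℝ) / p ≤
          ∑ p ∈ (PM n y \ PM n z) ∪ PM n z, (rho f p : ℝ) / p := by
        refine sum_le_sum_of_subset_of_nonneg ?_ fun p _ _ => by positivity
        rw [sdiff_union_self_eq_union]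
        exact subset_union_left
      rw [sum_union sdiff_disjoint] at h3
      exact h3
    rw [hC1]
    linarith
  set A' : ℝ := A * (2 : ℝ) ^ ((1 - η) * C1) with hA'
  have hA'0 : 0 < A' := by positivity
  have hlogt : Tendsto (fun y : ℕ => Real.log y) atTop atTop :=
    Real.tendsto_log_atTop.comp tendsto_natCast_atTop_atTop
  have hSt : Tendsto S atTop atTop := by
    have h1 : Tendsto (fun y : ℕ => κ * Real.log (Real.log y) - C1) atTop atTop := by
      apply tendsto_atTop_add_const_right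
      exact (Real.tendsto_log_atTop.comp hlogt).const_mul_atTop hκ
    refine tendsto_atTop_mono' _ ?_ h1
    filter_upwards [eventually_ge_atTop 3] with y hy
    exact hSl y hy
  -- the eventual inequalities
  have ev1 : ∀ᶠ y : ℕ in atTop, 1 ≤ S y ∧ 24 / (δ * η ^ 2) ≤ S y :=
    (hSt.eventually_ge_atTop 1).and (hSt.eventually_ge_atTop _)
  have ev2 : ∀ᶠ y : ℕ in atTop, 32 * (d : ℝ) ^ 2 / (η ^ 2 * δ) ≤ y ∧ 8 * d / δ ≤ (y : ℝ) := by
    have h1 : Tendsto (fun y : ℕ => (y : ℝ)) atTop atTop := tendsto_natCast_atTop_atTop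
    exact (h1.eventually_ge_atTop _).and (h1.eventually_ge_atTop _)
  have ev3 : ∀ᶠ y : ℕ in atTop, A' * (1 + (16 * Real.log y) ^ c') < (Real.log y) ^ a1 := by
    have h1 : Tendsto (fun y : ℕ => (Real.log y) ^ (a1 - c')) atTop atTop :=
      (tendsto_rpow_atTop (by linarith)).comp hlogt
    filter_upwards [h1.eventually_gt_atTop (A' * (1 + (16 : ℝ) ^ c')),
      hlogt.eventually_ge_atTop 1] with y h2 h3
    have h4 : (Real.log y) ^ a1 = (Real.log y) ^ (a1 - c') * (Real.log y) ^ c' := by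
      rw [← Real.rpow_add (by linarith)]
      congr 1
      ring
    have h5 : (1 : ℝ) ≤ (Real.log y) ^ c' := Real.one_le_rpow h3 hc'0
    have h6 : (16 * Real.log y) ^ c' = (16 : ℝ) ^ c' * (Real.log y) ^ c' :=
      Real.mul_rpow (by norm_num) (by linarith)
    rw [h4, h6]
    have h7 : (0 : ℝ) < (16 : ℝ) ^ c' := by positivity
    calc A' * (1 + (16 : ℝ) ^ c' * (Real.log y) ^ c')
        ≤ A' * ((1 + (16 : ℝ) ^ c') * (Real.log y) ^ c') := by
          apply mul_le_mul_of_nonneg_left _ hA'0.le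
          rw [add_mul, one_mul]
          linarith
      _ = (A' * (1 + (16 : ℝ) ^ c')) * (Real.log y) ^ c' := by ring
      _ < _ := mul_lt_mul_of_pos_right h2 (by linarith)
  filter_upwards [rt8_tendsto.eventually ev1, rt8_tendsto.eventually ev2,
    rt8_tendsto.eventually ev3, rt8_tendsto.eventually (eventually_ge_atTop (z + 3)),
    eventually_ge_atTop 3] with X e1 e2 e3 e4 e5
  unfold Ex
  obtain ⟨y, hy⟩ : ∃ y, y = rt8 X := ⟨_, rfl⟩
  rw [← hy] at e1 e2 e3 e4 ⊢
  have hyX : y ^ 8 ≤ X := by rw [hy]; exact rt8_le X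
  have hXy : X < (y + 1) ^ 8 := by rw [hy]; exact lt_rt8 X
  have hXr : (1 : ℝ) ≤ X := by exact_mod_cast (by omega : 1 ≤ X)
  have hyr : (1 : ℝ) ≤ y := by exact_mod_cast (by omega : 1 ≤ y)
  have hyXr : (y : ℝ) ^ 8 ≤ X := by exact_mod_cast hyX
  have hAB : -(X : ℤ) - 1 ≤ X := by omega
  have hIoc : Ioc (-(X : ℤ) - 1) X = Icc (-(X : ℤ)) X := by
    ext t
    rw [mem_Ioc, mem_Icc]
    omega
  have hLen : (((X : ℤ) : ℝ) - ((-(X : ℤ) - 1 : ℤ) : ℝ)) ≤ 3 * X := by
    push_cast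
    linarith
  have hLen0 : 0 ≤ (((X : ℤ) : ℝ) - ((-(X : ℤ) - 1 : ℤ) : ℝ)) := by
    push_cast
    linarith
  -- the two exceptional sets
  set E2 := (Ioc (-(X : ℤ) - 1) X).filter (fun t : ℤ => ∃ p : ℕ, p.Prime ∧ z < p ∧ p ≤ y ∧
      (p : ℤ) ^ 2 ∣ f.eval t) with hE2
  set E3 := (Ioc (-(X : ℤ) - 1) X).filter (fun t =>
    (om f (PM n y \ PM n z) t : ℝ) ≤
      (1 - η) * SS f (PM n y \ PM n z)) with hE3
  have c2 : (E2.card : ℝ) ≤ 3 * δ / 8 * X := by
    have h1 := sq_count f (y := y) hf hz hz0 (by omega) (-(X : ℤ) - 1) X hAB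
    refine h1.trans ?_
    have hz0r : (0 : ℝ) < z := by exact_mod_cast hz0
    have h2 : (d : ℝ) * ((((X : ℤ) : ℝ) - ((-(X : ℤ) - 1 : ℤ) : ℝ)) / z) ≤ δ / 4 * X := by
      rw [mul_div_assoc', div_le_iff₀ hz0r]
      rw [div_le_iff₀ hδ] at hzr
      have h3 : (d : ℝ) * (((X : ℤ) : ℝ) - ((-(X : ℤ) - 1 : ℤ) : ℝ)) ≤ d * (3 * X) :=
        mul_le_mul_of_nonneg_left hLen (Nat.cast_nonneg _)
      have h4 : (12 * (d : ℝ)) * X ≤ (z * δ) * X := mul_le_mul_of_nonneg_right hzr (by linarith)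
      linarith
    have h3 : (d : ℝ) * y ≤ δ / 8 * X := by
      have h4 := e2.2
      rw [div_le_iff₀ hδ] at h4
      have h5 : (y : ℝ) ^ 2 ≤ X := by
        refine le_trans ?_ hyXr
        exact pow_le_pow_right₀ hyr (by norm_num)
      have h6 : 8 * (d : ℝ) * y ≤ y * δ * y := mul_le_mul_of_nonneg_right h4 (by linarith)
      have h7 : δ / 8 * (y : ℝ) ^ 2 ≤ δ / 8 * X := mul_le_mul_of_nonneg_left h5 (by linarith)
      linarith
    have h4 : (d : ℝ) * ((((X : ℤ) : ℝ) - ((-(X : ℤ) - 1 : ℤ) : ℝ)) / z + y) =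
        (d : ℝ) * ((((X : ℤ) : ℝ) - ((-(X : ℤ) - 1 : ℤ) : ℝ)) / z) + d * y := by ring
    rw [h4]
    linarith
  have c3 : (E3.card : ℝ) ≤ δ / 4 * X := by
    have hSpos : 0 < SS f (PM n y \ PM n z) := lt_of_lt_of_le one_pos e1.1
    have h1 := cheb f (PM n y \ PM n z) (fun p hp => (PM_diff hp).1) (-(X : ℤ) - 1) X hAB η
      hη0 hSpos
    refine h1.trans ?_
    set SY := SS f (PM n y \ PM n z) with hSY
    have hSY1 : (1 : ℝ) ≤ SY := e1.1
    have hSY2 : 24 / (δ * η ^ 2) ≤ SY := e1.2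
    have hη2 : 0 < η ^ 2 := by positivity
    -- the sum of the numbers of classes
    have hR : RR f (PM n y \ PM n z) ≤ d * y := by
      unfold RR
      calc ∑ p ∈ PM n y \ PM n z, (rho f p : ℝ)
          ≤ ∑ p ∈ PM n y \ PM n z, (d : ℝ) := by
            refine sum_le_sum fun p hp => ?_
            obtain ⟨hp1, hp2, -⟩ := PM_diff hp
            exact_mod_cast hf.rho p hp1 (by omega)
        _ = (PM n y \ PM n z).card * d := by rw [sum_const, nsmul_eq_mul]
        _ ≤ d * y := by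
            rw [mul_comm]
            apply mul_le_mul_of_nonneg_left _ (Nat.cast_nonneg _)
            have h2 : (PM n y \ PM n z).card ≤ y := by
              have h3 : PM n y \ PM n z ⊆ Icc 1 y := by
                intro p hp
                obtain ⟨h1, h2, h3⟩ := PM_diff hp
                exact mem_Icc.2 ⟨h1.one_lt.le, h3⟩
              have h4 := card_le_card h3
              rwa [Nat.card_Icc, Nat.add_sub_cancel] at h4
            exact_mod_cast h2
    have hR0 : 0 ≤ RR f (PM n y \ PM n z) := sum_nonneg fun p _ => Nat.cast_nonneg _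
    have h2 : (((X : ℤ) : ℝ) - ((-(X : ℤ) - 1 : ℤ) : ℝ)) / SY / η ^ 2 ≤ δ / 8 * X := by
      rw [div_div, div_le_iff₀ (by positivity)]
      rw [div_le_iff₀ (by positivity)] at hSY2
      have h3 : 24 * (X : ℝ) ≤ SY * (δ * η ^ 2) * X := mul_le_mul_of_nonneg_right hSY2 (by linarith)
      have h4 : δ / 8 * X * (SY * η ^ 2) = (SY * (δ * η ^ 2) * X) / 8 := by ring
      rw [h4]
      linarith
    have h3 : 4 * (RR f (PM n y \ PM n z)) ^ 2 / SY ^ 2 / η ^ 2 ≤ δ / 8 * X := by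
      rw [div_div, div_le_iff₀ (by positivity)]
      have h4 : (RR f (PM n y \ PM n z)) ^ 2 ≤ (d * y) ^ 2 :=
        pow_le_pow_left₀ hR0 hR 2
      have h5 := e2.1
      rw [div_le_iff₀ (by positivity)] at h5
      have h6 : (1 : ℝ) ≤ SY ^ 2 := one_le_pow₀ hSY1
      have h7 : (y : ℝ) ^ 3 ≤ X := by
        refine le_trans ?_ hyXr
        exact pow_le_pow_right₀ hyr (by norm_num)
      have h8 : 32 * (d : ℝ) ^ 2 * y ^ 2 ≤ (y * (η ^ 2 * δ)) * y ^ 2 :=
        mul_le_mul_of_nonneg_right h5 (by positivity)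
      have h9 : (y : ℝ) * (η ^ 2 * δ) * y ^ 2 ≤ X * (η ^ 2 * δ) := by
        have : (y : ℝ) * (η ^ 2 * δ) * y ^ 2 = y ^ 3 * (η ^ 2 * δ) := by ring
        rw [this]
        exact mul_le_mul_of_nonneg_right h7 (by positivity)
      have h10 : X * (η ^ 2 * δ) ≤ X * (η ^ 2 * δ) * SY ^ 2 :=
        le_mul_of_one_le_right (by positivity) h6
      linarith
    have h4 : ((((X : ℤ) : ℝ) - ((-(X : ℤ) - 1 : ℤ) : ℝ)) / SY +
        4 * (RR f (PM n y \ PM n z)) ^ 2 / SY ^ 2) / η ^ 2 =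
        (((X : ℤ) : ℝ) - ((-(X : ℤ) - 1 : ℤ) : ℝ)) / SY / η ^ 2 +
        4 * (RR f (PM n y \ PM n z)) ^ 2 / SY ^ 2 / η ^ 2 := by ring
    rw [h4]
    linarith
  -- the inclusion
  have hsub : (Icc (-(X : ℤ)) X).filter (fun t => (∃ p ∈ Ioc z y, p.Prime ∧
      (p : ℤ) ^ 2 ∣ f.eval t) ∨ (2 : ℝ) ^ om f (PM n y \ PM n z) t < A * (Real.log X) ^ c) ⊆
      E2 ∪ E3 := by
    intro t ht
    rw [mem_filter] at ht
    obtain ⟨htI, ht⟩ := ht
    have htI' : t ∈ Ioc (-(X : ℤ) - 1) X := by rw [hIoc]; exact htI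
    rw [mem_union]
    rcases ht with ⟨p, hp, hpp, hpt⟩ | ht
    · left
      rw [mem_Ioc] at hp
      exact mem_filter.2 ⟨htI', p, hpp, hp.1, hp.2, hpt⟩
    right
    rw [hE3, mem_filter]
    refine ⟨htI', ?_⟩
    by_contra hcon
    have q3 := not_le.1 hcon
    -- the logarithms
    have hlogy : 1 ≤ Real.log y := by
      by_contra hcon
      push Not at hcon
      have h7 : (3 : ℝ) ≤ y := by exact_mod_cast (by omega : 3 ≤ y)
      have h8 : Real.log y ≥ Real.log 3 := Real.log_le_log (by norm_num) h7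
      have h9 : (1 : ℝ) ≤ Real.log 3 := by
        rw [Real.le_log_iff_exp_le (by norm_num)]
        exact Real.exp_one_lt_d9.le.trans (by norm_num)
      linarith
    have hlogX1 : 1 ≤ Real.log X := by
      refine hlogy.trans (Real.log_le_log (by linarith) ?_)
      exact le_trans (le_self_pow₀ hyr (by norm_num)) hyXr
    have hlogX : Real.log X ≤ 16 * Real.log y := by
      have h7 : (X : ℝ) ≤ ((y : ℝ) ^ 2) ^ 8 := by
        have h8 : X ≤ (y ^ 2) ^ 8 := by
          exact hXy.le.trans (Nat.pow_le_pow_left (succ_le_sq (by omega)) 8)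
        exact_mod_cast h8
      have h8 := Real.log_le_log (by linarith) h7
      rw [← pow_mul, Real.log_pow] at h8
      push_cast at h8
      linarith
    have h6 : (Real.log X) ^ c ≤ 1 + (16 * Real.log y) ^ c' := by
      have h7 : (Real.log X) ^ c ≤ (Real.log X) ^ c' :=
        Real.rpow_le_rpow_of_exponent_le hlogX1 (le_max_left _ _)
      have h8 : (Real.log X) ^ c' ≤ (16 * Real.log y) ^ c' :=
        Real.rpow_le_rpow (by linarith) hlogX hc'0
      linarith
    have h7 : A * (Real.log X) ^ c ≤ A * (1 + (16 * Real.log y) ^ c') :=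
      mul_le_mul_of_nonneg_left h6 hA0.le
    -- the lower bound
    have h8 : (2 : ℝ) ^ ((1 - η) * (κ * Real.log (Real.log y) - C1)) ≤
        (2 : ℝ) ^ (om f (PM n y \ PM n z) t) := by
      rw [← Real.rpow_natCast 2 (om f (PM n y \ PM n z) t)]
      apply Real.rpow_le_rpow_of_exponent_le (by norm_num)
      refine le_trans ?_ q3.le
      exact mul_le_mul_of_nonneg_left (hSl y (by omega)) (by linarith)
    have h9 : (2 : ℝ) ^ ((1 - η) * (κ * Real.log (Real.log y) - C1)) =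
        (Real.log y) ^ a1 / (2 : ℝ) ^ ((1 - η) * C1) := by
      rw [mul_sub, Real.rpow_sub (by norm_num)]
      congr 1
      rw [Real.rpow_def_of_pos (by norm_num : (0 : ℝ) < 2),
        Real.rpow_def_of_pos (by linarith : (0 : ℝ) < Real.log y)]
      congr 1
      rw [ha1]
      ring
    rw [h9] at h8
    have h10 : (0 : ℝ) < (2 : ℝ) ^ ((1 - η) * C1) := by positivity
    have h11 := (h8.trans_lt ht).trans_le h7
    rw [div_lt_iff₀ h10] at h11
    have h12 : A * (1 + (16 * Real.log y) ^ c') * (2 : ℝ) ^ ((1 - η) * C1) =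
        A' * (1 + (16 * Real.log y) ^ c') := by
      rw [hA']
      ring
    rw [h12] at h11
    exact absurd h11 (not_lt.2 e3.le)
  have h1 := card_le_card hsub
  have h3 := card_union_le E2 E3
  have h5 : (((Icc (-(X : ℤ)) X).filter (fun t => (∃ p ∈ Ioc z y, p.Prime ∧
      (p : ℤ) ^ 2 ∣ f.eval t) ∨ (2 : ℝ) ^ om f (PM n y \ PM n z) t < A * (Real.log X) ^ c)).card : ℝ)
      ≤ E2.card + E3.card := by exact_mod_cast h1.trans h3
  have h2 : (0 : ℝ) ≤ δ * X := by positivity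
  linarith

/-- the relation between the two numbers of primes -/
lemma om_le_oz {D g G : ℤ[X]} {c : ℤ} (hc : c ≠ 0) (hcg : C (c ^ 2) * D = g ^ 2 * G) {n : ℤ}
    {z y : ℕ} (hzc : c.natAbs ≤ z) {t : ℤ} (hD : D.eval t ≠ 0) (hg : g.eval t ≠ 0)
    (hsq : ¬ ∃ p ∈ Ioc z y, p.Prime ∧ (p : ℤ) ^ 2 ∣ G.eval t) :
    om G (PM n y \ PM n z) t ≤ oz z n (D.eval t) := by
  classical
  unfold om oz
  refine card_le_card fun p hp => ?_
  rw [mem_filter] at hp
  obtain ⟨hp1, hp2⟩ := hp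
  obtain ⟨hpp, hzp, hpy⟩ := PM_diff hp1
  have h2 := congrArg (eval t) hcg
  rw [eval_mul, eval_mul, eval_C, eval_pow] at h2
  have hG0 : G.eval t ≠ 0 := by
    intro h0
    rw [h0, mul_zero] at h2
    exact (mul_ne_zero (pow_ne_zero 2 hc) hD) h2
  have hlu : ¬ lu p n = 1 := by
    have h3 := (Finset.mem_sdiff.1 hp1).1
    unfold PM at h3
    exact (mem_filter.1 h3).2.2
  -- the exponents
  have h3 := congrArg Int.natAbs h2
  rw [Int.natAbs_mul, Int.natAbs_mul, Int.natAbs_pow, Int.natAbs_pow] at h3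
  have hc' : c.natAbs ≠ 0 := Int.natAbs_ne_zero.2 hc
  have hD' : (D.eval t).natAbs ≠ 0 := Int.natAbs_ne_zero.2 hD
  have hg' : (g.eval t).natAbs ≠ 0 := Int.natAbs_ne_zero.2 hg
  have hG' : (G.eval t).natAbs ≠ 0 := Int.natAbs_ne_zero.2 hG0
  have h4 := congrArg (fun m : ℕ => m.factorization p) h3
  simp only [Nat.factorization_mul (pow_ne_zero 2 hc') hD',
    Nat.factorization_mul (pow_ne_zero 2 hg') hG', Nat.factorization_pow, Finsupp.add_apply,
    Finsupp.smul_apply, smul_eq_mul] at h4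
  have h5 : c.natAbs.factorization p = 0 := by
    apply Nat.factorization_eq_zero_of_lt
    omega
  have h6 : (G.eval t).natAbs.factorization p = 1 := by
    have h7 : p ∣ (G.eval t).natAbs := Int.natCast_dvd.1 hp2
    have h8 : ¬ p ^ 2 ∣ (G.eval t).natAbs := by
      intro h9
      apply hsq
      refine ⟨p, mem_Ioc.2 ⟨hzp, hpy⟩, hpp, ?_⟩
      have : ((p ^ 2 : ℕ) : ℤ) ∣ G.eval t := Int.natCast_dvd.2 h9
      push_cast at this
      exact this
    have h9 : 0 < (G.eval t).natAbs.factorization p :=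
      hpp.factorization_pos_of_dvd hG' h7
    have h10 : (G.eval t).natAbs.factorization p < 2 := by
      by_contra hcon
      exact h8 ((hpp.pow_dvd_iff_le_factorization hG').2 (not_lt.1 hcon))
    omega
  rw [h5, h6, mul_zero, zero_add] at h4
  rw [mem_filter, Nat.mem_primeFactors]
  refine ⟨⟨hpp, ?_, hD'⟩, hzp, ?_, hlu⟩
  · by_contra hcon
    rw [Nat.factorization_eq_zero_of_not_dvd hcon] at h4
    omega
  · rw [h4]
    exact ⟨_, rfl⟩

end Pool.Agent.U409.HP
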